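import Pool.Agent.Helper75.T5.RegV
import Pool.Agent.Helper22.NEAR.Defs

/-!
# T5a, block NEAR, line N7 in the form of `Helper22/NEAR/Defs.lean`

`regE_V`: the windows below all static levels (`s = k`) are regular off an event of probability
`exp (-W (k + 1))`, for every set of keys with the keys of the window blocks.
-/

set_option autoImplicit false

namespace Pool.Agent.Helper75.T5

open Finset Pool.Agent.Helper42.T5.Pr Pool.Agent.Helper50.T5
open Pool.Agent.Helper5.ET (era bb Nj)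
open Pool.Agent.Helper27.T5 (la rt W used ef)
open Pool.Agent.Helper11.T5 Pool.Agent.Helper57.T5 Pool.Agent.Helper45.T5
open Pool.Agent.Helper22.NEAR Pool.Agent.Helper63.T5
open Pool.Agent.Helper39.T5 (keysD keysD_sub)

/-- the two copies of the finite probability are the same -/
theorem prG_of_prLe {κ : Type*} [DecidableEq κ] {M : κ → ℕ} {K : Finset κ}
    {B : (κ → ℕ) → Prop} {ε : ℝ} (h : PrLe M K B ε) : Pool.Agent.Helper22.SL.PrG M K B ε := h

theorem prLe_of_prG {κ : Type*} [DecidableEq κ] {M : κ → ℕ} {K : Finset κ}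
    {B : (κ → ℕ) → Prop} {ε : ℝ} (h : Pool.Agent.Helper22.SL.PrG M K B ε) : PrLe M K B ε := h

theorem regSet_num {B : Finset ℕ} {Q : ℕ} {R R' w w' : ℝ} (h : RegSet B Q R w) (hR : R ≤ R')
    (hR0 : 0 ≤ R') (hw' : 0 < w') (hw : w' ≤ w) : RegSet B Q R' w' := by
  intro g hg hgQ a L c
  have hgR : (0 : ℝ) < g := by exact_mod_cast hg
  have h1 : (L : ℝ) / (g * w) ≤ L / (g * w') := by
    apply div_le_div_of_nonneg_left (Nat.cast_nonneg _) (by positivity)
    exact mul_le_mul_of_nonneg_left hw hgR.le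
  have h0 : (0 : ℝ) ≤ L / (g * w) := by
    have : 0 < w := lt_of_lt_of_le hw' hw
    positivity
  calc ((B.filter fun b => a ≤ b ∧ b < a + L ∧ b % g = c % g).card : ℝ)
      ≤ R * (1 + L / (g * w)) := h g hg hgQ a L c
    _ ≤ R' * (1 + L / (g * w)) := mul_le_mul_of_nonneg_right hR (by linarith)
    _ ≤ R' * (1 + L / (g * w')) := mul_le_mul_of_nonneg_left (by linarith) hR0

/-- below all static levels the windows are the window set -/
theorem Bw_top (m k l : ℕ) (w : Key → ℕ) : Bw m k l k w = Vw m k l w := by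
  have hpos : 0 < Nj l * LA m k (era l) :=
    Nat.mul_pos (Pool.Agent.Helper27.T5.Nj_pos1 l) (LA_pos _ _ _)
  ext b
  unfold Bw
  rw [mem_image]
  constructor
  · rintro ⟨u, hu, rfl⟩
    obtain ⟨y, -, v, hv, rfl⟩ := mem_Zw.1 hu
    rw [Finset.Ico_self, Finset.sum_empty, zero_add, ← LA_eq, Nat.mul_div_cancel_left _ hpos]
    exact hv
  · intro hb
    refine ⟨Nj l * LA m k (era l) * b, mem_Zw.2 ⟨fun _ _ => 0, fun t h1 h2 => ?_, b, hb, ?_⟩, ?_⟩
    · omega
    · rw [Finset.Ico_self, Finset.sum_empty, zero_add]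
    · rw [← LA_eq, Nat.mul_div_cancel_left _ hpos]

variable {m k : ℕ}

/-- **N7**, deterministic part: `RegSet` with the numbers of `regV` is `RegE` -/
theorem regE_of_regSet (hk : k + 2 ≤ m) : ∃ j0 : ℕ, ∀ l, used m l → j0 ≤ era l →
    ∀ w : Key → ℕ, RegSet (Vw m k l w) 1 (64 * W m (era l) (k + 1))
      ((2 ^ lev (vlo m k (era l)) : ℕ) : ℝ) → RegE m k (era l) l k w := by
  obtain ⟨η, hη, h1⟩ := exists_eta (m := m) (k := k) hk
  obtain ⟨j1, h2⟩ := Pool.Agent.Helper27.T5.exists_large m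
  obtain ⟨j2, h3⟩ := Pool.Agent.Helper30.T5.exists_le_rt (m := m) (by omega)
    (10000 * (⌈η⌉₊ + 8) + 64 * 2 * 10000 ^ 2)
  refine ⟨max j1 j2, fun l hu hj w hreg => ⟨1, fun n => Nat.coprime_one_right _, ?_⟩⟩
  have hb := h2 (era l) (le_trans (le_max_left _ _) hj)
  have hr := h3 (era l) (le_trans (le_max_right _ _) hj)
  have hW : rt m (era l) ≤ W m (era l) (k + 1) :=
    Pool.Agent.Helper30.T5.rt_le_W (by omega)
  obtain ⟨e1, -⟩ := h1 l hu hb (by omega)
  rw [Bw_top]
  set N := W m (era l) (k + 1) with hN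
  have hN1 : 10000 * (⌈η⌉₊ + 8) + 64 * 2 * 10000 ^ 2 ≤ N := by omega
  have hNR : (10000 : ℝ) * η ≤ N := by
    have e2 : η ≤ ⌈η⌉₊ := Nat.le_ceil _
    have e3 : ((10000 * (⌈η⌉₊ + 8) + 64 * 2 * 10000 ^ 2 : ℕ) : ℝ) ≤ N := by exact_mod_cast hN1
    push_cast at e3
    nlinarith
  have hNR2 : (64 * 2 * 10000 ^ 2 : ℝ) ≤ N := by
    have e3 : ((64 * 2 * 10000 ^ 2 : ℕ) : ℝ) ≤ N := by
      exact_mod_cast (show 64 * 2 * 10000 ^ 2 ≤ N by omega)
    push_cast at e3
    norm_num at e3 ⊢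
    exact e3
  refine regSet_num hreg ?_ (Real.exp_pos _).le (Real.exp_pos _) ?_
  · -- 64 N ≤ exp (N / 10000)
    have h4 := Real.quadratic_le_exp_of_nonneg (x := (N : ℝ) / 10000) (by positivity)
    have h5 : (64 : ℝ) * N ≤ ((N : ℝ) / 10000) ^ 2 / 2 := by
      have : ((N : ℝ) / 10000) ^ 2 / 2 = N * (N / (2 * 10000 ^ 2)) := by ring
      rw [this]
      have h6 : (64 : ℝ) ≤ N / (2 * 10000 ^ 2) := by
        rw [le_div_iff₀ (by norm_num)]
        linarith
      nlinarith [(Nat.cast_nonneg N : (0 : ℝ) ≤ N)]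
    have h7 : (0 : ℝ) ≤ (N : ℝ) / 10000 := by positivity
    linarith
  · refine le_trans ?_ e1
    rw [Real.exp_le_exp]
    have : lam = Real.log (10 ^ 6) := rfl
    rw [this]
    linarith

/-- **N7**: the windows below all static levels are regular, for every set of keys which contains
the keys of the window blocks -/
theorem regE_V (hk : k + 2 ≤ m) : ∃ j0 : ℕ, ∀ l, used m l → j0 ≤ era l → ∀ K : Finset Key,
    keysD m k l k ⊆ K → Pool.Agent.Helper22.SL.PrG (Mk m) K
      (fun w => ¬ RegE m k (era l) l k w) (Real.exp (-(W m (era l) (k + 1) : ℝ))) := by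
  obtain ⟨j1, h1⟩ := regE_of_regSet (m := m) (k := k) hk
  obtain ⟨j2, h2⟩ := regV (m := m) (k := k) hk
  refine ⟨max j1 j2, fun l hu hj K hK => ?_⟩
  have h3 := h2 l hu (le_trans (le_max_right _ _) hj) K
    (fun v hv => hK (Pool.Agent.Helper39.T5.bkey_mem_keysD k hv)) 1
  refine prG_of_prLe (PrLe_mono (fun r _ hn hreg => hn ?_) le_rfl h3)
  exact h1 l hu (le_trans (le_max_left _ _) hj) _ hreg

end Pool.Agent.Helper75.T5
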