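import Pool.Agent.Helper57.T5.Tower
import Pool.Agent.Helper22.HW.Keys
import Pool.Agent.Helper3.T4.Decode

/-!
# T5 (MP_12a1af), block CNT: decoding of one element and the range of the elements
-/

namespace Pool.Agent.Helper75.T5

open Finset Pool.Agent.Helper27.T4 Pool.Agent.Helper22.HW Pool.Agent.Helper57.T5

/-- Few tuples `(x, y, v)` give the same element `c x + ∑ cc t (y t) + N * L * v`.
`N` = modulus of the label level, `LL Q r` = product of the moduli of the static levels. -/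
theorem dec_card {α β : Type*} [DecidableEq α] [DecidableEq β] (X : Finset α) (c : α → ℕ) (r : ℕ)
    (Y : ℕ → Finset β) (cc : ℕ → β → ℕ) (Q Cd : ℕ → ℕ) (N C₁ : ℕ) (hN : 0 < N)
    (hQ : ∀ t < r, 0 < Q t)
    (hX : ∀ T, (X.filter (fun x => c x ≡ T [MOD N])).card ≤ C₁)
    (hd : ∀ t < r, ∀ y ∈ Y t, N * LL Q t ∣ cc t y)
    (hdec : ∀ t < r, ∀ T, ((Y t).filter (fun y => cc t y ≡ T [MOD Q t])).card ≤ Cd t)
    (V : Finset ℕ) (a : ℕ) :
    (((X ×ˢ Fintype.piFinset (fun t : Fin r => Y t)) ×ˢ V).filter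
      (fun q => (c q.1.1 + ∑ t : Fin r, cc t (q.1.2 t)) + N * LL Q r * q.2 = a)).card
      ≤ C₁ * ∏ t ∈ range r, Cd t := by
  classical
  have hL : 0 < LL Q r := LL_pos hQ
  refine le_trans ?_ (Nat.mul_le_mul_right (∏ t ∈ range r, Cd t) (hX a))
  refine le_trans (Finset.card_le_mul_card_image_of_maps_to
    (f := fun q : (α × (Fin r → β)) × ℕ => q.1.1) ?_ (∏ t ∈ range r, Cd t) ?_)
    (le_of_eq (mul_comm _ _))
  · rintro ⟨⟨x, y⟩, v⟩ hq
    simp only [mem_filter, mem_product, Fintype.mem_piFinset] at hq ⊢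
    refine ⟨hq.1.1.1, ?_⟩
    have h1 : N ∣ ∑ t : Fin r, cc t (y t) :=
      Finset.dvd_sum (fun t _ => (Dvd.intro _ rfl).trans (hd t t.2 (y t) (hq.1.1.2 t)))
    have h2 : N ∣ N * LL Q r * v := Dvd.intro _ (by ring : N * (LL Q r * v) = N * LL Q r * v)
    have h3 : c x + (∑ t : Fin r, cc t (y t) + N * LL Q r * v) ≡ c x + 0 [MOD N] :=
      Nat.ModEq.add_left _ ((Nat.modEq_zero_iff_dvd).2 (dvd_add h1 h2))
    rw [← hq.2, add_assoc]
    exact h3.symm
  · intro x _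
    rcases Finset.eq_empty_or_nonempty ((((X ×ˢ Fintype.piFinset (fun t : Fin r => Y t)) ×ˢ V).filter
      (fun q => (c q.1.1 + ∑ t : Fin r, cc t (q.1.2 t)) + N * LL Q r * q.2 = a)).filter
        (fun q => q.1.1 = x)) with h0 | ⟨q0, hq0⟩
    · rw [h0]; simp
    · refine le_trans (card_le_card_of_injOn (fun q : (α × (Fin r → β)) × ℕ => q.1.2) ?_ ?_)
        (tower_dec Y cc Q Cd r (fun t ht y hy => (dvd_mul_left _ _).trans (hd t ht y hy)) hdec
          (∑ t : Fin r, cc t (q0.1.2 t)))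
      · intro q hq
        simp only [coe_filter, mem_filter, mem_product, Set.mem_ofPred_eq] at hq hq0 ⊢
        refine ⟨hq.1.1.1.2, ?_⟩
        have h1 := hq.1.2.trans hq0.1.2.symm
        rw [hq.2, hq0.2, add_assoc, add_assoc] at h1
        have h2 := Nat.add_left_cancel h1
        have h3 : ∀ s v : ℕ, s + N * LL Q r * v ≡ s + 0 [MOD LL Q r] := fun s v =>
          Nat.ModEq.add_left _ ((Nat.modEq_zero_iff_dvd).2
            (Dvd.intro _ (by ring : LL Q r * (N * v) = N * LL Q r * v)))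
        have h4 := h3 (∑ t : Fin r, cc t (q.1.2 t)) q.2
        have h5 := h3 (∑ t : Fin r, cc t (q0.1.2 t)) q0.2
        rw [add_zero] at h4 h5
        rw [h2] at h4
        exact h4.symm.trans h5
      · intro q hq q' hq' h
        simp only [coe_filter, mem_filter, mem_product, Set.mem_ofPred_eq] at hq hq'
        have hx : q.1.1 = q'.1.1 := hq.2.trans hq'.2.symm
        have hy : q.1.2 = q'.1.2 := h
        have h1 := hq.1.2.trans hq'.1.2.symm
        rw [hx, hy] at h1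
        have h2 := Nat.add_left_cancel h1
        have h3 := Nat.eq_of_mul_eq_mul_left (Nat.mul_pos hN hL) h2
        exact Prod.ext (Prod.ext hx hy) h3

/-- The range of an element. -/
theorem el_range (B : ℕ → ℕ) (x₀ : ℕ) (h₀ : x₀ < B 0) (r : ℕ)
    (hB : ∀ t < r, 2 * B t ≤ B (t + 1)) (x : Fin r → ℕ) (hx : ∀ t : Fin r, x t < B (t + 1))
    (M v : ℕ) : M * v ≤ (x₀ + ∑ t : Fin r, x t) + M * v ∧
      (x₀ + ∑ t : Fin r, x t) + M * v < 2 * B r + M * v := by
  have := tower_size B x₀ h₀ r hB x hx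
  omega

variable {ι : Type*} [Fintype ι] [DecidableEq ι] {p : ι → ℕ}

/-- decoding of one code of one level modulo its modulus -/
theorem lc_dec (hp : ∀ i, (p i).Prime) (hp2 : ∀ i, p i ≠ 2) (hinj : Function.Injective p)
    (F : ℕ) (hF : ∀ i, F.Coprime (p i)) (z e : ι → ℕ) (hze : ∀ i, z i ≤ e i) (rk : ι → ℕ)
    (ρ : ∀ i, (ι → ℕ) → ZMod (p i ^ e i))
    (hρ : ∀ i x y, (∀ j, rk j < rk i → x j = y j) → ρ i x = ρ i y)
    (Y : Finset (ι → ℕ)) (hY : ∀ y ∈ Y, ∀ i, (y i).Coprime (p i) ∧ y i ^ 2 < p i ^ z i) (T : ℕ) :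
    (Y.filter (fun y => lc hp hinj F e ρ y ≡ T [MOD NN p z])).card ≤ ∏ i, (p i - 1) := by
  classical
  refine Pool.Agent.Helper3.T4.card_code_le (p := p) hp hp2 z rk
    (fun i y => ZMod.castHom (pow_dvd_pow (p i) (hze i)) (ZMod (p i ^ z i)) (ρ i y))
    (fun i x y h => by rw [hρ i x y h]) (fun i => ((T : ℕ) : ZMod (p i ^ z i))) _ ?_
  intro y hy i
  obtain ⟨hy1, hy2⟩ := Finset.mem_filter.1 hy
  obtain ⟨h1, h2⟩ := hY y hy1 i
  refine ⟨h1, h2, ?_⟩
  rw [← lc_cast hp hp2 hinj F hF e z hze ρ y i h1, ZMod.natCast_eq_natCast_iff]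
  exact hy2.of_dvd (pow_dvd_NN p z i)

/-- decoding of one code of one level, the form with `Side` -/
theorem side_dec (hp : ∀ i, (p i).Prime) (hp2 : ∀ i, p i ≠ 2) (hinj : Function.Injective p)
    {κ : Type*} {S : Side p κ} {rk : ι → ℕ} {Mk : κ → ℕ} (hS : S.Ok rk Mk) (w : κ → ℕ)
    (Y : Finset (ι → ℕ)) (hY : ∀ y ∈ Y, ∀ i, (y i).Coprime (p i) ∧ y i ^ 2 < p i ^ S.z i)
    (T : ℕ) : (Y.filter (fun y => S.cd hp hinj w y ≡ T [MOD NN p S.z])).card ≤ ∏ i, (p i - 1) :=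
  lc_dec hp hp2 hinj S.F hS.cop S.z S.e hS.ze rk (S.rho w)
    (fun i x y h => hS.rho_dep w i x y h) Y hY T

end Pool.Agent.Helper75.T5
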