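import Pool.Agent.Helper22.NEAR.Defs

/-!
# T5a, block NEAR, line NE3: the number of contexts
-/

set_option autoImplicit false

namespace Pool.Agent.Helper75.T5

open Finset Pool.Agent.Helper27.T5 Pool.Agent.Helper22.NEAR Pool.Agent.Helper63.T5
open Pool.Agent.Helper5.ET (Nj era pr)

theorem pj_le_exp (j : ℕ) : (pj j : ℝ) ≤ Real.exp 14 := by
  have h1 : (pj j : ℝ) ≤ 1000037 := by
    unfold pj
    exact_mod_cast pr_le _
  have h2 : (1000037 : ℝ) ≤ Real.exp 14 := by
    rw [← Real.log_le_iff_le_exp (by norm_num)]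
    exact log_pr
  linarith

/-- **NE3** -/
theorem card_Jx {k j t l' l : ℕ} (h : PD (k + 2) k j (t + 1) l' l) :
    ((Jx (k + 2) j t l' l).card : ℝ) ≤ Real.exp (90 * W (k + 2) j (t + 1)) := by
  have hak := h.ak
  have hel := h.el
  have hbig := h.big
  have hD := h.D7
  have hlt := h.lt
  have hef : 64 * (ef (k + 2) (t + 1) l - l) ≤ W (k + 2) j (t + 1) := by
    have := ef_sub_le (m := k + 2) (i := t + 1) (l := l) (by rw [hel]; exact hbig) (by omega)
    rwa [hel] at this
  have hW : 2 ^ 10 ≤ W (k + 2) j (t + 1) := W_ge hbig (by omega)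
  set N := W (k + 2) j (t + 1) with hN
  set e := ef (k + 2) (t + 1) l - l' with he
  have he2 : 2 * e ≤ N := by omega
  have hDD : ((DD (k + 2) j t l' l : ℕ) : ℝ) ≤ Real.exp (7 * N) := by
    unfold DD
    rw [Nat.cast_pow]
    calc ((pj j : ℝ)) ^ e ≤ (Real.exp 14) ^ e :=
          pow_le_pow_left₀ (Nat.cast_nonneg _) (pj_le_exp j) _
      _ = Real.exp (14 * e) := by
          rw [← Real.exp_nat_mul]
          congr 1
          ring
      _ ≤ Real.exp (7 * N) := by
          rw [Real.exp_le_exp]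
          have : (2 : ℝ) * e ≤ N := by exact_mod_cast he2
          linarith
  have h10 : (((10 ^ 6) ^ (3 * N) : ℕ) : ℝ) ≤ Real.exp (42 * N) := by
    have e1 : (10 : ℝ) ^ 6 ≤ Real.exp 14 := by
      rw [← Real.log_le_iff_le_exp (by norm_num)]
      exact log_base_le
    calc (((10 ^ 6) ^ (3 * N) : ℕ) : ℝ) = ((10 : ℝ) ^ 6) ^ (3 * N) := by
          rw [Nat.cast_pow]
          norm_num
      _ ≤ (Real.exp 14) ^ (3 * N) := pow_le_pow_left₀ (by norm_num) e1 _
      _ = Real.exp (42 * N) := by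
          rw [← Real.exp_nat_mul]
          congr 1
          push_cast
          ring
  have h4 : (4 : ℝ) ≤ Real.exp N := by
    have e1 := Real.add_one_le_exp (N : ℝ)
    have e2 : (1024 : ℝ) ≤ N := by exact_mod_cast (show 1024 ≤ N by omega)
    linarith
  have hcard : (Jx (k + 2) j t l' l).card ≤
      DD (k + 2) j t l' l * (DD (k + 2) j t l' l * (4 * (10 ^ 6) ^ (3 * N))) := by
    unfold Jx
    refine (card_filter_le _ _).trans (le_of_eq ?_)
    simp only [card_product, card_range]
    rfl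
  calc ((Jx (k + 2) j t l' l).card : ℝ)
      ≤ ((DD (k + 2) j t l' l * (DD (k + 2) j t l' l * (4 * (10 ^ 6) ^ (3 * N))) : ℕ) : ℝ) := by
        exact_mod_cast hcard
    _ = (DD (k + 2) j t l' l : ℝ) * ((DD (k + 2) j t l' l : ℝ) *
          (4 * (((10 ^ 6) ^ (3 * N) : ℕ) : ℝ))) := by
        rw [Nat.cast_mul, Nat.cast_mul, Nat.cast_mul]
        norm_num
    _ ≤ Real.exp (7 * N) * (Real.exp (7 * N) * (Real.exp N * Real.exp (42 * N))) := by
        gcongr
    _ = Real.exp (57 * N) := by
        rw [← Real.exp_add, ← Real.exp_add, ← Real.exp_add]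
        congr 1
        ring
    _ ≤ Real.exp (90 * N) := by
        rw [Real.exp_le_exp]
        have : (0 : ℝ) ≤ N := Nat.cast_nonneg _
        linarith

end Pool.Agent.Helper75.T5
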