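import Pool.Agent.Helper22.HW.Keys
import Pool.Agent.Helper42.T5.Pr

/-!
# T5b (MP_12a1af): the outermost static level pays (estimate (5) of the plan)

All families of one static level are hashed by an outer key (the vector of the extra families of
level one).  For one context (labels `I`, targets `X`, outer keys `o`, `o'`, windows `U`, `U'`)
`est5` bounds the probability that there are many labels with pairwise different outer keys `o`
for which the level (both codes) together with the windows hits the target.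
-/

namespace Pool.Agent.Helper75.T5

open Finset Pool.Agent.Helper27.T4 Pool.Agent.Helper29.T4 Pool.Agent.Helper22.HW
  Pool.Agent.Helper42.T5.Pr

/-! ## the tuple bound as a probability -/

section Tuple

variable {κ : Type*} [DecidableEq κ] {M : κ → ℕ}

/-- tuple bound: the hits are evaluated at `Φ w`, where `Φ` does not change the keys of `K` -/
theorem PrLe_tuple (hM : ∀ k, 0 < M k) (K : Finset κ) (Φ : (κ → ℕ) → κ → ℕ)
    (hΦ : ∀ r ∈ OmK M K, ∀ k ∈ K, Φ (ext K r) k = ext K r k)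
    {δ : Type*} (Y : Finset δ) (hit : δ → (κ → ℕ) → Prop) (fk : δ → Finset κ) (vl : δ → κ → ℕ)
    (hfk : ∀ y ∈ Y, fk y ⊆ K)
    (hv : ∀ y ∈ Y, ∀ r ∈ OmK M K, hit y (Φ (ext K r)) →
      ∀ k ∈ fk y, Φ (ext K r) k = vl y k)
    (Q : ℝ) (hQ : ∑ z ∈ Y, ∏ k ∈ fk z, ((M k : ℝ))⁻¹ ≤ Q) (m : ℕ) :
    PrLe M K (fun w => ∃ T ⊆ Y, T.card = m + 1 ∧ (∀ y ∈ T, hit y (Φ w)) ∧
      (∀ y ∈ T, ∀ z ∈ T, y ≠ z → Disjoint (fk y) (fk z))) (Y.card * Q ^ m) := by
  classical
  unfold PrLe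
  rw [mul_comm]
  refine tuple_bound_set (κ' := K) (fun k : K => M k) (fun k => hM k) Y
    (fun y r => hit y (Φ (ext K r))) (fun y => univ.filter (fun k : K => k.1 ∈ fk y))
    (fun y k => vl y k.1) ?_ Q ?_ m _ ?_
  · intro y hy r hr hh k hk
    rw [mem_filter] at hk
    rw [← hv y hy r hr hh k.1 hk.2, hΦ r hr k.1 k.2, ext_mem r k.2]
  · refine le_trans (le_of_eq (Finset.sum_congr rfl (fun z hz => ?_))) hQ
    rw [← Finset.prod_image (s := univ.filter (fun k : K => k.1 ∈ fk z)) (g := fun k : K => (k : κ))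
      (f := fun k => ((M k : ℝ))⁻¹) (fun a _ b _ hab => Subtype.ext hab)]
    congr 1
    ext k
    rw [mem_image]
    constructor
    · rintro ⟨k', hk', rfl⟩
      exact (mem_filter.1 hk').2
    · intro hk
      exact ⟨⟨k, hfk z hz hk⟩, mem_filter.2 ⟨mem_univ _, hk⟩, rfl⟩
  · intro r hr
    obtain ⟨hr1, T, hT, hTc, hh, hd⟩ := (@Finset.mem_filter _ _ (_) _ _).1 hr
    refine ⟨hr1, T, hT, hTc, hh, ?_⟩
    intro y hy z hz hyz
    have := hd y hy z hz hyz
    rw [Finset.disjoint_left] at this ⊢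
    intro k hk hk'
    rw [mem_filter] at hk hk'
    exact this hk.2 hk'.2

end Tuple

/-! ## sides with an outer key -/

/-- the parameters of one side; `key o i y` is the key of the family `i` at the prefix `y` and the
outer key `o` -/
structure OSide {ι : Type*} (p : ι → ℕ) (κ ω : Type*) where
  /-- front -/
  F : ℕ
  /-- ranges -/
  z : ι → ℕ
  /-- extensions -/
  e : ι → ℕ
  /-- keys -/
  key : ω → ι → (ι → ℕ) → κ

variable {ι : Type*} {p : ι → ℕ} {κ ω : Type*}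

/-- the side for a fixed outer key -/
def OSide.side (S : OSide p κ ω) (o : ω) : Side p κ := ⟨S.F, S.z, S.e, S.key o⟩

/-- requirements -/
structure OSide.Ok (S : OSide p κ ω) (rk : ι → ℕ) (Mk : κ → ℕ) : Prop where
  ok : ∀ o, (S.side o).Ok rk Mk
  outer : ∀ o o' i i' y y', S.key o i y = S.key o' i' y' → o = o'

/-- the code -/
noncomputable def OSide.cd [Fintype ι] (hp : ∀ i, (p i).Prime) (hinj : Function.Injective p)
    (S : OSide p κ ω) (w : κ → ℕ) (o : ω) (y : ι → ℕ) : ℕ := (S.side o).cd hp hinj w y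

/-- a class modulo `F * q` cut with an interval -/
theorem card_class_le {A F q T : ℕ} (hco : F.Coprime q) (G : Finset ℕ)
    (hG : ∀ r ∈ G, F ∣ r ∧ r ≤ T ∧ T - r < A) (b : ZMod q)
    (hb : ∀ r ∈ G, ((T - r : ℕ) : ZMod q) = b) : G.card ≤ A / (F * q) + 1 := by
  rw [← Finset.card_image_of_injOn (f := fun r => T - r) (s := G) ?_]
  · apply class_card (L := F * q)
    · intro x hx
      rw [mem_image] at hx
      obtain ⟨r, hr, rfl⟩ := hx
      exact (hG r hr).2.2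
    · intro x hx y hy
      rw [mem_image] at hx hy
      obtain ⟨r, hr, rfl⟩ := hx
      obtain ⟨s, hs, rfl⟩ := hy
      refine (Nat.modEq_and_modEq_iff_modEq_mul hco).1 ⟨?_, ?_⟩
      · have e1 : (T - r) + r = T := by have := (hG r hr).2.1; omega
        have e2 : (T - s) + s = T := by have := (hG s hs).2.1; omega
        have h1 : (T - r) + r ≡ (T - s) + s [MOD F] := by rw [e1, e2]
        have h2 : r ≡ s [MOD F] := ((Nat.modEq_zero_iff_dvd).2 (hG r hr).1).trans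
          ((Nat.modEq_zero_iff_dvd).2 (hG s hs).1).symm
        exact Nat.ModEq.add_right_cancel h2 h1
      · rw [← ZMod.natCast_eq_natCast_iff, hb r hr, hb s hs]
  · intro r hr s hs hrs
    have e1 := (hG r hr).2.1
    have e2 := (hG s hs).2.1
    simp only at hrs
    omega

/-! ## candidates -/

section Cands

variable [Fintype ι] [DecidableEq ι] [DecidableEq κ] {γ : Type*}

/-- the fresh keys of a candidate: all families on the side of `a`, the families `≠ f` on the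
side of `a'` -/
def fkc (S S' : OSide p κ ω) (o o' : γ → ω) (f : ι) (t : Cnd ι γ) : Finset κ :=
  (S.side (o t.1)).fk univ t.2.1.1 ∪ (S'.side (o' t.1)).fk (univ.erase f) t.2.1.2

/-- the candidate is a hit -/
def HitO (hp : ∀ i, (p i).Prime) (hinj : Function.Injective p) (S S' : OSide p κ ω) (X : γ → ℕ)
    (o o' : γ → ω) (w : κ → ℕ) (t : Cnd ι γ) : Prop :=
  S.cd hp hinj w (o t.1) t.2.1.1 = t.2.2.2 ∧
    S.cd hp hinj w (o t.1) t.2.1.1 + S'.cd hp hinj w (o' t.1) t.2.1.2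
      + (t.2.2.1.1 + t.2.2.1.2) = X t.1

open Classical in
/-- the set of candidates; `v g y'` is the value of the key of the family `f` on the side `a'` -/
noncomputable def candSet (S S' : OSide p κ ω) (I : Finset γ) (X : γ → ℕ) (Y Y' : Finset (ι → ℕ))
    (U U' : Finset ℕ) (f : ι) (v : γ → (ι → ℕ) → ℕ) : Finset (Cnd ι γ) :=
  (I ×ˢ ((Y ×ˢ Y') ×ˢ ((U ×ˢ U') ×ˢ range (S.F * NN p S.e)))).filter
    (fun t => S.F ∣ t.2.2.2 ∧ t.2.2.2 ≤ X t.1 - (t.2.2.1.1 + t.2.2.1.2) ∧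
      X t.1 - (t.2.2.1.1 + t.2.2.1.2) - t.2.2.2 < S'.F * NN p S'.e ∧
      ((X t.1 - (t.2.2.1.1 + t.2.2.1.2) - t.2.2.2 : ℕ) : ZMod (p f ^ S'.e f)) =
        Lg (p f) (S'.e f) (t.2.1.2 f) + ((v t.1 t.2.1.2 : ℕ) : ZMod (p f ^ S'.e f)))

omit [DecidableEq ι] [DecidableEq κ] in
theorem card_candSet_le (S S' : OSide p κ ω) (I : Finset γ) (X : γ → ℕ)
    (Y Y' : Finset (ι → ℕ)) (U U' : Finset ℕ) (f : ι) (v : γ → (ι → ℕ) → ℕ)
    (hco : S.F.Coprime (p f)) :
    (candSet S S' I X Y Y' U U' f v).card ≤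
      (I.card * ((Y.card * Y'.card) * (U.card * U'.card))) *
        (S'.F * NN p S'.e / (S.F * p f ^ S'.e f) + 1) := by
  classical
  have h1 : (I ×ˢ ((Y ×ˢ Y') ×ˢ (U ×ˢ U'))).card
      = I.card * ((Y.card * Y'.card) * (U.card * U'.card)) := by
    rw [card_product, card_product, card_product, card_product]
  rw [← h1, mul_comm]
  refine Finset.card_le_mul_card_image_of_maps_to
    (f := fun t : Cnd ι γ => (t.1, (t.2.1, t.2.2.1))) ?_ _ ?_
  · rintro ⟨g, ⟨⟨y, y'⟩, ⟨⟨u, u'⟩, r⟩⟩⟩ ht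
    rw [candSet, mem_filter] at ht
    simp only [mem_product] at ht ⊢
    tauto
  · rintro ⟨g, ⟨⟨y, y'⟩, ⟨u, u'⟩⟩⟩ _
    have hco' : S.F.Coprime (p f ^ S'.e f) := Nat.Coprime.pow_right _ hco
    refine le_trans ?_ (card_class_le (A := S'.F * NN p S'.e) (F := S.F) (q := p f ^ S'.e f)
      (T := X g - (u + u')) hco' (((candSet S S' I X Y Y' U U' f v).filter
        (fun t => (t.1, (t.2.1, t.2.2.1)) = (g, ((y, y'), (u, u'))))).image (fun t => t.2.2.2))
      ?_ (Lg (p f) (S'.e f) (y' f) + ((v g y' : ℕ) : ZMod (p f ^ S'.e f))) ?_)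
    · rw [Finset.card_image_of_injOn]
      rintro ⟨g1, ⟨⟨y1, y1'⟩, ⟨⟨u1, u1'⟩, r1⟩⟩⟩ h1 ⟨g2, ⟨⟨y2, y2'⟩, ⟨⟨u2, u2'⟩, r2⟩⟩⟩ h2 h12
      have e1 := (mem_filter.1 (mem_coe.1 h1)).2
      have e2 := (mem_filter.1 (mem_coe.1 h2)).2
      simp only [Prod.mk.injEq] at e1 e2 h12 ⊢
      obtain ⟨a1, ⟨a2, a3⟩, a4, a5⟩ := e1
      obtain ⟨b1, ⟨b2, b3⟩, b4, b5⟩ := e2
      subst a1 a2 a3 a4 a5
      exact ⟨b1.symm, ⟨b2.symm, b3.symm⟩, ⟨b4.symm, b5.symm⟩, h12⟩
    · intro r hr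
      rw [mem_image] at hr
      obtain ⟨t, ht, rfl⟩ := hr
      obtain ⟨ht1, ht2⟩ := mem_filter.1 ht
      rw [candSet, mem_filter] at ht1
      obtain ⟨-, c1, c2, c3, -⟩ := ht1
      obtain ⟨g1, ⟨⟨y1, y1'⟩, ⟨⟨u1, u1'⟩, r1⟩⟩⟩ := t
      simp only [Prod.mk.injEq] at ht2 c1 c2 c3 ⊢
      obtain ⟨a1, -, a4, a5⟩ := ht2
      subst a1 a4 a5
      exact ⟨c1, c2, c3⟩
    · intro r hr
      rw [mem_image] at hr
      obtain ⟨t, ht, rfl⟩ := hr
      obtain ⟨ht1, ht2⟩ := mem_filter.1 ht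
      rw [candSet, mem_filter] at ht1
      obtain ⟨-, -, -, -, c4⟩ := ht1
      obtain ⟨g1, ⟨⟨y1, y1'⟩, ⟨⟨u1, u1'⟩, r1⟩⟩⟩ := t
      simp only [Prod.mk.injEq] at ht2 c4 ⊢
      obtain ⟨a1, ⟨a2, a3⟩, a4, a5⟩ := ht2
      subst a1 a2 a3 a4 a5
      exact c4

/-- the value of a fresh key forced by a candidate -/
noncomputable def vlc (S S' : OSide p κ ω) (X : γ → ℕ) (o o' : γ → ω) (f : ι) (t : Cnd ι γ)
    (k : κ) : ℕ :=
  if h : ∃ i, (S.side (o t.1)).key i t.2.1.1 = k then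
    kval (S.side (o t.1)) t.2.1.1 t.2.2.2 h.choose
  else if h' : ∃ i, i ≠ f ∧ (S'.side (o' t.1)).key i t.2.1.2 = k then
    kval (S'.side (o' t.1)) t.2.1.2 (X t.1 - (t.2.2.1.1 + t.2.2.1.2) - t.2.2.2) h'.choose
  else 0

theorem vlc_spec (hp : ∀ i, (p i).Prime) (hinj : Function.Injective p) {S S' : OSide p κ ω}
    {rk : ι → ℕ} {Mk : κ → ℕ} (hS : S.Ok rk Mk) (hS' : S'.Ok rk Mk) {X : γ → ℕ} {o o' : γ → ω}
    {f : ι} {w : κ → ℕ} (t : Cnd ι γ) (h : HitO hp hinj S S' X o o' w t) (k : κ)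
    (hk : k ∈ fkc S S' o o' f t) (hw : w k < Mk k) : w k = vlc S S' X o o' f t k := by
  classical
  obtain ⟨hr, hsum⟩ := h
  rw [fkc, mem_union] at hk
  unfold vlc
  by_cases h1 : ∃ i, (S.side (o t.1)).key i t.2.1.1 = k
  · rw [dif_pos h1]
    have hch := h1.choose_spec
    have h3 := key_value hp hinj (hS.ok (o t.1)) w t.2.1.1 t.2.2.2 h1.choose
      (by rw [hch]; exact hw) hr
    rwa [hch] at h3
  · rw [dif_neg h1]
    rcases hk with hk | hk
    · exfalso
      rw [Side.fk, mem_image] at hk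
      obtain ⟨i, _, hi⟩ := hk
      exact h1 ⟨i, hi⟩
    · have h2 : ∃ i, i ≠ f ∧ (S'.side (o' t.1)).key i t.2.1.2 = k := by
        rw [Side.fk, mem_image] at hk
        obtain ⟨i, hif, hi⟩ := hk
        exact ⟨i, Finset.ne_of_mem_erase hif, hi⟩
      rw [dif_pos h2]
      have hch := h2.choose_spec
      have hr' : (S'.side (o' t.1)).cd hp hinj w t.2.1.2
          = X t.1 - (t.2.2.1.1 + t.2.2.1.2) - t.2.2.2 := by
        rw [← hsum, hr]
        change S'.cd hp hinj w (o' t.1) t.2.1.2 = _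
        omega
      have h3 := key_value hp hinj (hS'.ok (o' t.1)) w t.2.1.2 _ h2.choose
        (by rw [hch.2]; exact hw) hr'
      rwa [hch.2] at h3

theorem weight_fkc {S S' : OSide p κ ω} {rk : ι → ℕ} {Mk : κ → ℕ} (hS : S.Ok rk Mk)
    (hS' : S'.Ok rk Mk) (hdisj : ∀ o i y o' i' y', S.key o i y ≠ S'.key o' i' y')
    (o o' : γ → ω) (f : ι) (t : Cnd ι γ) :
    ∏ k ∈ fkc S S' o o' f t, ((Mk k : ℝ))⁻¹
      = ((NN p S.e : ℝ) * (MM p S'.e (univ.erase f) : ℝ))⁻¹ := by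
  have e1 := (hS.ok (o t.1)).prod_fk (univ : Finset ι) t.2.1.1
  have e2 := (hS'.ok (o' t.1)).prod_fk (univ.erase f) t.2.1.2
  rw [fkc, Finset.prod_union, e1, e2, mul_inv]
  · rfl
  · rw [Finset.disjoint_left]
    intro k hk hk'
    rw [Side.fk, mem_image] at hk hk'
    obtain ⟨i, _, hi⟩ := hk
    obtain ⟨i', _, hi'⟩ := hk'
    exact hdisj _ i _ _ i' _ (hi.trans hi'.symm)

/-- **many fresh candidates**: the tuple bound for the candidates -/
theorem prle_cands (hp : ∀ i, (p i).Prime) (hinj : Function.Injective p) {S S' : OSide p κ ω}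
    {rk : ι → ℕ} {Mk : κ → ℕ} (hS : S.Ok rk Mk) (hS' : S'.Ok rk Mk)
    (hdisj : ∀ o i y o' i' y', S.key o i y ≠ S'.key o' i' y') (hMk : ∀ k, 0 < Mk k)
    (K : Finset κ) (Φ : (κ → ℕ) → κ → ℕ)
    (hΦ : ∀ r ∈ OmK Mk K, ∀ k ∈ K, Φ (ext K r) k = ext K r k)
    (X : γ → ℕ) (o o' : γ → ω) (f : ι) (C : Finset (Cnd ι γ))
    (hK : ∀ t ∈ C, fkc S S' o o' f t ⊆ K)
    (Q : ℝ) (hQ : (C.card : ℝ) ≤ Q * ((NN p S.e : ℝ) * (MM p S'.e (univ.erase f) : ℝ))) (m : ℕ) :
    PrLe Mk K (fun w => ∃ T ⊆ C, T.card = m + 1 ∧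
      (∀ t ∈ T, HitO hp hinj S S' X o o' (Φ w) t) ∧
      (∀ t ∈ T, ∀ t' ∈ T, t ≠ t' → Disjoint (fkc S S' o o' f t) (fkc S S' o o' f t')))
      (C.card * Q ^ m) := by
  classical
  refine PrLe_tuple hMk K Φ hΦ C (fun t w => HitO hp hinj S S' X o o' w t)
    (fkc S S' o o' f) (vlc S S' X o o' f) hK ?_ Q ?_ m
  · intro t ht r hr hh k hk
    refine vlc_spec hp hinj hS hS' t hh k hk ?_
    rw [hΦ r hr k (hK t ht hk)]
    exact ext_lt hMk hr k
  · have hpos : (0 : ℝ) < (NN p S.e : ℝ) * (MM p S'.e (univ.erase f) : ℝ) := by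
      have h1 : (0 : ℝ) < (NN p S.e : ℝ) := by exact_mod_cast NN_pos hp S.e
      have h2 : (0 : ℝ) < (MM p S'.e (univ.erase f) : ℝ) := by exact_mod_cast MM_pos hp S'.e _
      exact mul_pos h1 h2
    rw [Finset.sum_congr rfl (fun t _ => weight_fkc hS hS' hdisj o o' f t), Finset.sum_const,
      nsmul_eq_mul, ← div_eq_mul_inv, div_le_iff₀ hpos]
    exact hQ

end Cands

/-! ## pigeonhole -/

/-- a set of size `m + 1` on which `g` is injective, if `g` has more than `m` values -/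
theorem exists_inj_subset {α β : Type*} [DecidableEq β] (T : Finset α) (g : α → β) (m : ℕ)
    (h : m < (T.image g).card) : ∃ T1 ⊆ T, T1.card = m + 1 ∧ Set.InjOn g T1 := by
  classical
  have h0 : Set.SurjOn g (T : Set α) ((T.image g : Finset β) : Set β) := by
    intro b hb
    rw [Finset.mem_coe, mem_image] at hb
    obtain ⟨a, ha, rfl⟩ := hb
    exact ⟨a, ha, rfl⟩
  obtain ⟨u, hu, hinj, him⟩ := h0.exists_subset_injOn_image_eq
  have hfin : u.Finite := T.finite_toSet.subset hu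
  have hcard : m + 1 ≤ hfin.toFinset.card := by
    have e : hfin.toFinset.image g = T.image g := by
      apply Finset.coe_injective
      rw [Finset.coe_image, hfin.coe_toFinset, him]
    calc m + 1 ≤ (T.image g).card := h
      _ = (hfin.toFinset.image g).card := by rw [e]
      _ ≤ _ := card_image_le
  obtain ⟨T1, hT1, hc⟩ := exists_subset_card_eq hcard
  refine ⟨T1, fun a ha => ?_, hc, ?_⟩
  · exact hu (hfin.mem_toFinset.1 (hT1 ha))
  · intro a ha b hb hab
    exact hinj (hfin.mem_toFinset.1 (hT1 ha)) (hfin.mem_toFinset.1 (hT1 hb)) hab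

/-- either many different values or many equal values -/
theorem pigeon {α β : Type*} [DecidableEq β] (T : Finset α) (g : α → β) (m1 m2 : ℕ)
    (h : m1 * m2 < T.card) : (∃ T1 ⊆ T, T1.card = m1 + 1 ∧ Set.InjOn g T1) ∨
      (∃ b ∈ T.image g, ∃ T2 ⊆ T, T2.card = m2 + 1 ∧ ∀ a ∈ T2, g a = b) := by
  classical
  by_cases hc : m1 < (T.image g).card
  · exact Or.inl (exists_inj_subset T g m1 hc)
  · refine Or.inr ?_
    have h1 : (T.image g).card * m2 < T.card :=
      lt_of_le_of_lt (Nat.mul_le_mul_right m2 (not_lt.1 hc)) h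
    obtain ⟨b, hb, hlt⟩ := exists_lt_card_fiber_of_mul_lt_card_of_maps_to
      (fun a ha => mem_image_of_mem g ha) h1
    obtain ⟨T2, hT2, hc2⟩ := exists_subset_card_eq (Nat.succ_le_of_lt hlt)
    exact ⟨b, hb, T2, fun a ha => (mem_filter.1 (hT2 ha)).1, hc2,
      fun a ha => (mem_filter.1 (hT2 ha)).2⟩

/-! ## the family of rank zero -/

section Star

variable [Fintype ι] [DecidableEq ι] [DecidableEq κ] {γ : Type*}

/-- the key of the family of rank zero -/
def kf (S : OSide p κ ω) (f : ι) (o : ω) : κ := S.key o f (fun _ => 0)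

omit [Fintype ι] [DecidableEq ι] [DecidableEq κ] in
theorem kf_eq {S : OSide p κ ω} {rk : ι → ℕ} {Mk : κ → ℕ} (hS : S.Ok rk Mk) {f : ι}
    (hf : ∀ i, rk f ≤ rk i) (o : ω) (y : ι → ℕ) : S.key o f y = kf S f o :=
  (hS.ok o).dep f y (fun _ => 0) (fun j hj => absurd hj (not_lt.2 (hf j)))

omit [Fintype ι] [DecidableEq ι] [DecidableEq κ] in
theorem kf_size {S : OSide p κ ω} {rk : ι → ℕ} {Mk : κ → ℕ} (hS : S.Ok rk Mk) (f : ι) (o : ω) :
    Mk (kf S f o) = p f ^ S.e f := (hS.ok o).size f (fun _ => 0)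

omit [DecidableEq ι] [DecidableEq κ] in
theorem cd_modEq (hp : ∀ i, (p i).Prime) (hinj : Function.Injective p) {S : OSide p κ ω}
    {rk : ι → ℕ} {Mk : κ → ℕ} (hS : S.Ok rk Mk) (w : κ → ℕ) (o : ω) (y : ι → ℕ) (i : ι) :
    S.cd hp hinj w o y ≡ (Lg (p i) (S.e i) (y i)).val + w (S.key o i y) [MOD p i ^ S.e i] := by
  have : NeZero (p i ^ S.e i) := ⟨(pow_pos (hp i).pos _).ne'⟩
  rw [← ZMod.natCast_eq_natCast_iff]
  push_cast
  rw [ZMod.natCast_zmod_val]
  exact fc_cast hp hinj (S.side o).F (hS.ok o).cop (S.side o).e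
    (fun i => Lg (p i) ((S.side o).e i) (y i) + (S.side o).rho w i y) i

/-- value of the key of rank zero forced by a congruence -/
noncomputable def vls (S : OSide p κ ω) (X : γ → ℕ) (f : ι) (b : ℕ) (t : γ × ℕ) : ℕ :=
  ((X t.1 : ZMod (p f ^ S.e f)) - (((Lg (p f) (S.e f) t.2).val : ℕ) : ZMod (p f ^ S.e f))
    - ((b : ℕ) : ZMod (p f ^ S.e f))).val

omit [Fintype ι] [DecidableEq ι] in
/-- **few labels with a constant right part**: tuple bound for the family of rank zero -/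
theorem prle_star (hp : ∀ i, (p i).Prime) {S : OSide p κ ω}
    {rk : ι → ℕ} {Mk : κ → ℕ} (hS : S.Ok rk Mk) (hMk : ∀ k, 0 < Mk k)
    (K : Finset κ) (Φ : (κ → ℕ) → κ → ℕ)
    (hΦ : ∀ r ∈ OmK Mk K, ∀ k ∈ K, Φ (ext K r) k = ext K r k)
    (X : γ → ℕ) (o : γ → ω) (f : ι) (I : Finset γ) (Y0 : Finset ℕ) (b : ℕ)
    (hK : ∀ g ∈ I, kf S f (o g) ∈ K)
    (Q : ℝ) (hQ : (I.card : ℝ) * Y0.card ≤ Q * (p f ^ S.e f : ℕ)) (m : ℕ) :
    PrLe Mk K (fun w => ∃ T ⊆ I ×ˢ Y0, T.card = m + 1 ∧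
      (∀ t ∈ T, (Lg (p f) (S.e f) t.2).val + (Φ w) (kf S f (o t.1)) + b ≡ X t.1
        [MOD p f ^ S.e f]) ∧
      (∀ t ∈ T, ∀ t' ∈ T, t ≠ t' → o t.1 ≠ o t'.1))
      ((I.card * Y0.card : ℕ) * Q ^ m) := by
  classical
  have hnz : NeZero (p f ^ S.e f) := ⟨(pow_pos (hp f).pos _).ne'⟩
  have h := PrLe_tuple hMk K Φ hΦ (I ×ˢ Y0)
    (fun t w => (Lg (p f) (S.e f) t.2).val + w (kf S f (o t.1)) + b ≡ X t.1 [MOD p f ^ S.e f])
    (fun t => {kf S f (o t.1)}) (fun t _ => vls S X f b t) ?_ ?_ Q ?_ m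
  · rw [card_product] at h
    refine PrLe_mono ?_ le_rfl h
    rintro r _ ⟨T, hT, hTc, hh, hd⟩
    refine ⟨T, hT, hTc, hh, fun t ht t' ht' htt => ?_⟩
    rw [Finset.disjoint_singleton]
    intro he
    exact hd t ht t' ht' htt (hS.outer _ _ _ _ _ _ he)
  · intro t ht
    rw [Finset.singleton_subset_iff]
    exact hK t.1 (mem_product.1 ht).1
  · intro t ht r hr hh k hk
    rw [mem_singleton] at hk
    subst hk
    have hk1 := hK t.1 (mem_product.1 ht).1
    have hlt : (Φ (ext K r)) (kf S f (o t.1)) < p f ^ S.e f := by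
      rw [hΦ r hr _ hk1]
      have := ext_lt hMk hr (kf S f (o t.1))
      rwa [kf_size hS] at this
    rw [← ZMod.natCast_eq_natCast_iff] at hh
    push_cast at hh
    have h2 : (((Φ (ext K r)) (kf S f (o t.1)) : ℕ) : ZMod (p f ^ S.e f)) =
        (X t.1 : ZMod (p f ^ S.e f)) - (((Lg (p f) (S.e f) t.2).val : ℕ) : ZMod (p f ^ S.e f))
          - ((b : ℕ) : ZMod (p f ^ S.e f)) := by
      rw [← hh]; ring
    rw [vls, ← h2, ZMod.val_natCast_of_lt hlt]
  · have hpos : (0 : ℝ) < ((p f ^ S.e f : ℕ) : ℝ) := by exact_mod_cast pow_pos (hp f).pos _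
    have h1 : ∀ z ∈ I ×ˢ Y0, ∏ k ∈ ({kf S f (o z.1)} : Finset κ), ((Mk k : ℝ))⁻¹
        = (((p f ^ S.e f : ℕ) : ℝ))⁻¹ := by
      intro z _
      rw [Finset.prod_singleton]
      rw [kf_size hS]
    rw [Finset.sum_congr rfl h1, Finset.sum_const, nsmul_eq_mul, ← div_eq_mul_inv,
      div_le_iff₀ hpos, card_product]
    push_cast at hQ ⊢
    exact hQ

end Star

/-! ## the estimate -/

section Est

variable [Fintype ι] [DecidableEq ι] [DecidableEq κ] {γ : Type*}

/-- the label `g` is a hit -/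
def LHit (hp : ∀ i, (p i).Prime) (hinj : Function.Injective p) (S S' : OSide p κ ω) (X : γ → ℕ)
    (o o' : γ → ω) (Y Y' : Finset (ι → ℕ)) (U U' : Finset ℕ) (w : κ → ℕ) (g : γ) : Prop :=
  ∃ y ∈ Y, ∃ y' ∈ Y', ∃ u ∈ U, ∃ u' ∈ U',
    S.cd hp hinj w (o g) y + S'.cd hp hinj w (o' g) y' + (u + u') = X g

open Classical in
/-- **Estimate (5).**  `f` is the family of rank zero.  Outside an event of probability
`NA * QA ^ m1 + NB * QB ^ m2` there are at most `m1 * m2` labels with pairwise different outer keys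
`o` which are hits. -/
theorem est5 (hp : ∀ i, (p i).Prime) (hinj : Function.Injective p) {S S' : OSide p κ ω}
    {rk : ι → ℕ} {Mk : κ → ℕ} (hS : S.Ok rk Mk) (hS' : S'.Ok rk Mk)
    (hdisj : ∀ o i y o' i' y', S.key o i y ≠ S'.key o' i' y') (hMk : ∀ k, 0 < Mk k)
    (f : ι) (hf : ∀ i, i ≠ f → rk f < rk i) (hef : S'.e f = S.e f)
    (K : Finset κ) (I : Finset γ) (X : γ → ℕ) (o o' : γ → ω) (Y Y' : Finset (ι → ℕ))
    (U U' : Finset ℕ) (hU : ∀ u ∈ U, p f ^ S.e f ∣ u) (hU' : ∀ u ∈ U', p f ^ S.e f ∣ u)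
    (hK : ∀ g ∈ I, ∀ y ∈ Y, ∀ i, S.key (o g) i y ∈ K)
    (hK' : ∀ g ∈ I, ∀ y ∈ Y', ∀ i, S'.key (o' g) i y ∈ K)
    (QA QB : ℝ) (hQA0 : 0 ≤ QA) (hQB0 : 0 ≤ QB)
    (hQA : (((I.card * ((Y.card * Y'.card) * (U.card * U'.card))) *
        (S'.F * NN p S'.e / (S.F * p f ^ S'.e f) + 1) : ℕ) : ℝ)
      ≤ QA * ((NN p S.e : ℝ) * (MM p S'.e (univ.erase f) : ℝ)))
    (hQB : (I.card : ℝ) * (Y.image (fun y => y f)).card ≤ QB * (p f ^ S.e f : ℕ)) (m1 m2 : ℕ) :
    PrLe Mk K (fun w => ∃ T ⊆ I, m1 * m2 < T.card ∧ Set.InjOn o T ∧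
        ∀ g ∈ T, LHit hp hinj S S' X o o' Y Y' U U' w g)
      ((((I.card * ((Y.card * Y'.card) * (U.card * U'.card))) *
        (S'.F * NN p S'.e / (S.F * p f ^ S'.e f) + 1) : ℕ) : ℝ) * QA ^ m1 +
      ((I.image o').card * (Y'.image (fun y => y f)).card : ℕ) *
        ((I.card * (Y.image (fun y => y f)).card : ℕ) * QB ^ m2)) := by
  classical
  set Y0 := Y.image (fun y => y f) with hY0
  set Y0' := Y'.image (fun y => y f) with hY0'
  set NA : ℕ := (I.card * ((Y.card * Y'.card) * (U.card * U'.card))) *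
        (S'.F * NN p S'.e / (S.F * p f ^ S'.e f) + 1) with hNA
  have hrk : ∀ i, rk f ≤ rk i := fun i => by
    by_cases h : i = f
    · rw [h]
    · exact (hf i h).le
  -- the keys of rank zero on the side of `a'`
  set K0 := K.filter (fun k => ∃ o₁, kf S' f o₁ = k) with hK0
  have hK0K : K0 ⊆ K := filter_subset _ _
  refine PrLe_cond hK0K (by positivity) (fun r0 hr0 => ?_)
  set Φ : (κ → ℕ) → κ → ℕ := fun w => glue K0 (ext K0 r0) w with hΦd
  have hΦ : ∀ r ∈ OmK Mk (K \ K0), ∀ k ∈ K \ K0, Φ (ext (K \ K0) r) k = ext (K \ K0) r k := by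
    intro r _ k hk
    exact glue_not_mem _ _ _ (mem_sdiff.1 hk).2
  set v : γ → (ι → ℕ) → ℕ := fun g _ => ext K0 r0 (kf S' f (o' g)) with hv
  set CC := candSet S S' I X Y Y' U U' f v with hCC
  have hcard : (CC.card : ℝ) ≤ (NA : ℝ) := by
    rcases I.eq_empty_or_nonempty with hI | ⟨g, hg⟩
    · have : CC = ∅ := by
        rw [hCC, candSet, hI, empty_product, filter_empty]
      rw [this, card_empty, Nat.cast_zero]
      exact Nat.cast_nonneg _
    · exact_mod_cast card_candSet_le S S' I X Y Y' U U' f v ((hS.ok (o g)).cop f)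
  -- part A
  have hCK : ∀ t ∈ CC, fkc S S' o o' f t ⊆ K \ K0 := by
    intro t ht k hk
    rw [hCC, candSet, mem_filter] at ht
    simp only [mem_product] at ht
    obtain ⟨⟨hg, ⟨hy, hy'⟩, -⟩, -⟩ := ht
    rw [fkc, mem_union, Side.fk, Side.fk, mem_image, mem_image] at hk
    rw [mem_sdiff, hK0, mem_filter]
    rcases hk with ⟨i, -, rfl⟩ | ⟨i, hi, rfl⟩
    · refine ⟨hK t.1 hg _ hy i, ?_⟩
      rintro ⟨-, o₁, ho⟩
      exact hdisj _ _ _ _ _ _ ho.symm
    · refine ⟨hK' t.1 hg _ hy' i, ?_⟩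
      rintro ⟨-, o₁, ho⟩
      have hoo := hS'.outer _ _ _ _ _ _ ho
      subst hoo
      exact (Finset.ne_of_mem_erase hi) (((hS'.ok (o' t.1)).inj _ _ _ _ ho).1).symm
  have hA := prle_cands hp hinj hS hS' hdisj hMk (K \ K0) Φ hΦ X o o' f CC hCK QA
    (hcard.trans hQA) m1
  -- part B
  have hB : ∀ q ∈ (I.image o') ×ˢ Y0', PrLe Mk (K \ K0) (fun w => ∃ T ⊆ I ×ˢ Y0, T.card = m2 + 1 ∧
      (∀ t ∈ T, (Lg (p f) (S.e f) t.2).val + (Φ w) (kf S f (o t.1)) +
        ((Lg (p f) (S'.e f) q.2).val + ext K0 r0 (kf S' f q.1)) ≡ X t.1 [MOD p f ^ S.e f]) ∧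
      (∀ t ∈ T, ∀ t' ∈ T, t ≠ t' → o t.1 ≠ o t'.1))
      ((I.card * Y0.card : ℕ) * QB ^ m2) := by
    intro q _
    rcases Y.eq_empty_or_nonempty with hYe | ⟨yy, hyy⟩
    · refine PrLe_false ?_ (by positivity)
      rintro r - ⟨T, hT, hTc, -⟩
      rw [hY0, hYe, image_empty, product_empty, subset_empty] at hT
      rw [hT, card_empty] at hTc
      omega
    · refine prle_star hp hS hMk (K \ K0) Φ hΦ X o f I Y0 _ ?_ QB hQB m2
      intro g hg
      rw [mem_sdiff, hK0, mem_filter]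
      refine ⟨?_, ?_⟩
      · have := hK g hg yy hyy f
        rwa [kf_eq hS hrk] at this
      · rintro ⟨-, o₁, ho⟩
        exact hdisj _ _ _ _ _ _ ho.symm
  have hB' := PrLe_exists ((I.image o') ×ˢ Y0') hB
  rw [Finset.sum_const, nsmul_eq_mul, card_product] at hB'
  refine PrLe_mono ?_ ?_ (PrLe_or hA hB')
  · -- the deterministic part
    rintro r hr ⟨T, hTI, hTc, hinjo, hhit⟩
    change ∀ g ∈ T, LHit hp hinj S S' X o o' Y Y' U U' (Φ (ext (K \ K0) r)) g at hhit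
    set w := Φ (ext (K \ K0) r) with hw
    choose! y hy y' hy' u hu u' hu' hsum using hhit
    have hwK0 : ∀ g ∈ I, ∀ z ∈ Y', w (kf S' f (o' g)) = ext K0 r0 (kf S' f (o' g)) := by
      intro g hg z hz
      refine glue_mem _ _ _ ?_
      rw [hK0, mem_filter]
      refine ⟨?_, o' g, rfl⟩
      have := hK' g hg z hz f
      rwa [kf_eq hS' hrk] at this
    rcases pigeon T (fun g => (o' g, y' g f)) m1 m2 hTc with ⟨T1, hT1, hc1, hi1⟩ |
      ⟨q, hq, T2, hT2, hc2, hq2⟩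
    · left
      refine ⟨T1.image (fun g => (g, ((y g, y' g), ((u g, u' g), S.cd hp hinj w (o g) (y g))))),
        ?_, ?_, ?_, ?_⟩
      · intro t ht
        rw [mem_image] at ht
        obtain ⟨g, hg, rfl⟩ := ht
        have hgT := hT1 hg
        have hgI := hTI hgT
        have hs := hsum g hgT
        have hlt1 : S.cd hp hinj w (o g) (y g) < S.F * NN p S.e :=
          fc_lt hp hinj S.F (hS.ok (o g)).pos S.e _
        have hlt2 : S'.cd hp hinj w (o' g) (y' g) < S'.F * NN p S'.e :=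
          fc_lt hp hinj S'.F (hS'.ok (o' g)).pos S'.e _
        have hdv : S.F ∣ S.cd hp hinj w (o g) (y g) := dvd_fc hp hinj S.F S.e _
        have hsub : X g - (u g + u' g) - S.cd hp hinj w (o g) (y g)
            = S'.cd hp hinj w (o' g) (y' g) := by omega
        rw [hCC, candSet, mem_filter]
        refine ⟨?_, hdv, ?_, ?_, ?_⟩
        · simp only [mem_product, mem_range]
          exact ⟨hgI, ⟨hy g hgT, hy' g hgT⟩, ⟨hu g hgT, hu' g hgT⟩, hlt1⟩
        · change S.cd hp hinj w (o g) (y g) ≤ X g - (u g + u' g)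
          omega
        · change X g - (u g + u' g) - S.cd hp hinj w (o g) (y g) < _
          rw [hsub]
          exact hlt2
        · change ((X g - (u g + u' g) - S.cd hp hinj w (o g) (y g) : ℕ) : ZMod (p f ^ S'.e f)) =
            Lg (p f) (S'.e f) (y' g f) + ((ext K0 r0 (kf S' f (o' g)) : ℕ) : ZMod (p f ^ S'.e f))
          rw [hsub, ← hwK0 g hgI (y' g) (hy' g hgT), ← kf_eq hS' hrk (o' g) (y' g)]
          exact fc_cast hp hinj (S'.side (o' g)).F (hS'.ok (o' g)).cop (S'.side (o' g)).e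
            (fun i => Lg (p i) ((S'.side (o' g)).e i) (y' g i) +
              (S'.side (o' g)).rho w i (y' g)) f
      · rw [card_image_of_injective, hc1]
        intro a b hab
        simp only [Prod.mk.injEq] at hab
        exact hab.1
      · intro t ht
        rw [mem_image] at ht
        obtain ⟨g, hg, rfl⟩ := ht
        exact ⟨rfl, hsum g (hT1 hg)⟩
      · intro t ht t' ht' htt
        rw [mem_image] at ht ht'
        obtain ⟨g, hg, rfl⟩ := ht
        obtain ⟨g', hg', rfl⟩ := ht'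
        have hgg : g ≠ g' := fun h => htt (by rw [h])
        rw [Finset.disjoint_left]
        intro k hk hk'
        rw [fkc, mem_union, Side.fk, Side.fk, mem_image, mem_image] at hk hk'
        rcases hk with ⟨i, -, rfl⟩ | ⟨i, hi, rfl⟩ <;> rcases hk' with ⟨j, -, hj⟩ | ⟨j, hj0, hj⟩
        · exact hgg (hinjo (hT1 hg) (hT1 hg') (hS.outer _ _ _ _ _ _ hj).symm)
        · exact hdisj _ _ _ _ _ _ hj.symm
        · exact hdisj _ _ _ _ _ _ hj
        · have hoo := hS'.outer _ _ _ _ _ _ hj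
          change o' g' = o' g at hoo
          have hj' : (S'.side (o' g)).key j (y' g') = (S'.side (o' g)).key i (y' g) := by
            have := hj
            change S'.key (o' g') j (y' g') = S'.key (o' g) i (y' g) at this
            rw [hoo] at this
            exact this
          obtain ⟨hji, hpre⟩ := (hS'.ok (o' g)).inj _ _ _ _ hj'
          have hff := hpre f (by rw [hji]; exact hf i (Finset.ne_of_mem_erase hi))
          exact hgg (hi1 hg hg' (Prod.ext hoo.symm hff.symm))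
    · right
      rw [mem_image] at hq
      obtain ⟨g0, hg0, rfl⟩ := hq
      refine ⟨(o' g0, y' g0 f), ?_, T2.image (fun g => (g, y g f)), ?_, ?_, ?_, ?_⟩
      · rw [mem_product]
        exact ⟨mem_image_of_mem _ (hTI hg0), mem_image_of_mem (fun z => z f) (hy' g0 hg0)⟩
      · intro t ht
        rw [mem_image] at ht
        obtain ⟨g, hg, rfl⟩ := ht
        rw [mem_product]
        exact ⟨hTI (hT2 hg), mem_image_of_mem (fun z => z f) (hy g (hT2 hg))⟩
      · rw [card_image_of_injective, hc2]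
        intro a b hab
        exact (Prod.mk.inj hab).1
      · intro t ht
        rw [mem_image] at ht
        obtain ⟨g, hg, rfl⟩ := ht
        have hgT := hT2 hg
        have hqq := hq2 g hg
        simp only [Prod.mk.injEq] at hqq
        have e1 := cd_modEq hp hinj hS w (o g) (y g) f
        have e2 := cd_modEq hp hinj hS' w (o' g) (y' g) f
        rw [kf_eq hS hrk] at e1
        rw [kf_eq hS' hrk, hwK0 g (hTI hgT) (y' g) (hy' g hgT)] at e2
        rw [hqq.1, hqq.2] at e2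
        have e2' : S'.cd hp hinj w (o' g0) (y' g) ≡ (Lg (p f) (S'.e f) (y' g0 f)).val +
            ext K0 r0 (kf S' f (o' g0)) [MOD p f ^ S.e f] := e2.of_dvd (by rw [hef])
        have e3 : u g + u' g ≡ 0 [MOD p f ^ S.e f] := (Nat.modEq_zero_iff_dvd).2
          (dvd_add (hU _ (hu g hgT)) (hU' _ (hu' g hgT)))
        have e4 := (e1.add e2').add e3
        have hs := hsum g hgT
        rw [hqq.1] at hs
        rw [hs, add_zero] at e4
        exact e4.symm
      · intro t ht t' ht' htt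
        rw [mem_image] at ht ht'
        obtain ⟨g, hg, rfl⟩ := ht
        obtain ⟨g', hg', rfl⟩ := ht'
        have hgg : g ≠ g' := fun h => htt (by rw [h])
        intro h
        exact hgg (hinjo (hT2 hg) (hT2 hg') h)
  · have h1 : (0 : ℝ) ≤ QA ^ m1 := pow_nonneg hQA0 _
    refine add_le_add (mul_le_mul_of_nonneg_right hcard h1) (le_of_eq ?_)
    push_cast
    ring

end Est

end Pool.Agent.Helper75.T5
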