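import Pool.Agent.Helper11.T5.Defs
import Pool.Agent.Helper75.T4.Inj
import Pool.Agent.Helper75.T5.Dec

/-!
# T5a (MP_12a1af), block CNT: decoding and range of the elements of a state
-/

namespace Pool.Agent.Helper75.T5

open Finset Pool.Agent.Helper27.T4 Pool.Agent.Helper27.T5
open Pool.Agent.Helper5.ET hiding Key AA Rp Mk keysOf vlo vhi bkey lev PrLe OmK ext
open Pool.Agent.Helper22.HW Pool.Agent.Helper30.T5 Pool.Agent.Helper57.T5
open Pool.Agent.Helper39.T5 Pool.Agent.Helper50.T5 Pool.Agent.Helper11.T5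
open Pool.Agent.Helper75.T4

/-! ## the main level -/

theorem mem_TT {ι : Type*} [Fintype ι] [DecidableEq ι] {p a : ι → ℕ} {y : ι → ℕ} (hy : y ∈ TT p a) (i : ι) :
    (y i).Prime ∧ (y i).Coprime (p i) ∧ y i ^ 2 < p i ^ a i := by
  unfold TT at hy
  rw [Fintype.mem_piFinset] at hy
  exact (Finset.mem_filter.1 (hy i)).2

theorem mask_pre_congr (l : ℕ) (f : Fin 3) (x y : Fin 3 → ℕ)
    (h : ∀ g, rk (ordK l) g < rk (ordK l) f → x g = y g) :
    mask (pre l f) x = mask (pre l f) y := by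
  funext g
  unfold mask
  by_cases hg : g ∈ pre l f
  · rw [if_pos hg, if_pos hg]
    unfold pre at hg
    split_ifs at hg with h1
    · exact absurd hg (Finset.notMem_empty _)
    · exact h g (Finset.mem_filter.1 hg).2
  · rw [if_neg hg, if_neg hg]

theorem c1_lt (m l : ℕ) (w : Key → ℕ) (x : Fin 3 → ℕ) : c1 m l w x < Nj (ef m 1 l) :=
  cv_lt pr_prime pr_inj _ _

/-- the code of the main level modulo `Nj j`, `j ≤ ef m 1 l`, component by component -/
theorem c1_cast (m l : ℕ) (w : Key → ℕ) (x : Fin 3 → ℕ) (f : Fin 3) (hx : (x f).Coprime (pr f))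
    {j : ℕ} (hj : j ≤ ef m 1 l) :
    ((c1 m l w x : ℕ) : ZMod (pr f ^ av j f)) =
      Lg (pr f) (av j f) (x f) +
        ((w (hkey l 1 f (mask (pre l f) x)) : ℕ) : ZMod (pr f ^ av j f)) := by
  have hle : av j f ≤ av (ef m 1 l) f := cnt_monotone f hj
  have h : ((c1 m l w x : ℕ) : ZMod (pr f ^ av (ef m 1 l) f)) =
      Lg (pr f) (av (ef m 1 l) f) (x f) +
        ((w (hkey l 1 f (mask (pre l f) x)) : ℕ) : ZMod (pr f ^ av (ef m 1 l) f)) :=
    cv_cast_comp pr_prime pr_inj (av (ef m 1 l)) (cmp1 m l w x) f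
  have h1 := congrArg (ZMod.castHom (pow_dvd_pow (pr f) hle) (ZMod (pr f ^ av j f))) h
  rw [map_natCast, map_add, map_natCast, Lg_red (pr_prime f) (pr_ne_two f) _ _ _ hx hle] at h1
  exact h1

/-- at most `10 ^ 21` admissible main triples have a given code modulo `Nj l` -/
theorem c1_dec (m l : ℕ) (w : Key → ℕ) (hl : l ≤ ef m 1 l) (T : ℕ) :
    ((X1 l).filter (fun x => c1 m l w x ≡ T [MOD Nj l])).card ≤ (10 ^ 7) ^ 3 := by
  classical
  have key := Pool.Agent.Helper3.T4.card_code_le (p := pr) pr_prime pr_ne_two (av l)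
    (rk (ordK l))
    (fun f x => ((w (hkey l 1 f (mask (pre l f) x)) : ℕ) : ZMod (pr f ^ av l f)))
    (fun f x y h => by rw [mask_pre_congr l f x y h])
    (fun f => ((T : ℕ) : ZMod (pr f ^ av l f)))
    ((X1 l).filter (fun x => c1 m l w x ≡ T [MOD Nj l])) ?_
  · refine key.trans ?_
    rw [Fin.prod_univ_three]
    change (1000003 - 1) * (1000033 - 1) * (1000037 - 1) ≤ (10 ^ 7) ^ 3
    norm_num
  · intro x hx f
    obtain ⟨h1, h2⟩ := Finset.mem_filter.1 hx
    obtain ⟨-, g2, g3⟩ := mem_TT h1 f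
    refine ⟨g2, g3, ?_⟩
    rw [← c1_cast m l w x f g2 hl, ZMod.natCast_eq_natCast_iff]
    exact h2.of_dvd (pow_dvd_NN pr (av l) f)

/-! ## the static levels -/

theorem ps_ne_two (t : ℕ) (f : Fin 3) : ps t f ≠ 2 := by
  have h := million_lt_sp (3 * (t + 2) + f)
  have e : (10 : ℕ) ^ 6 = 1000000 := by norm_num
  rw [e] at h
  unfold ps
  omega

theorem coprime_Qs_ps {m j i t : ℕ} (h : i ≠ t + 2) (f : Fin 3) : (Qs m j i).Coprime (ps t f) := by
  unfold Qs Qf ps
  exact Nat.Coprime.prod_left (fun g _ => Nat.Coprime.pow_left _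
    (coprime_sp (fun e => h (idx_inj e).1)))

theorem coprime_front (m l t : ℕ) (f : Fin 3) :
    (FF m l (t + 1) * LL (QQ m (era l)) t).Coprime (ps t f) := by
  refine Nat.Coprime.mul_left (coprime_Nj_sp _ _) ?_
  unfold LL
  refine Nat.Coprime.prod_left (fun i hi => ?_)
  have := mem_range.1 hi
  exact coprime_Qs_ps (by omega) f

theorem mask_lt_congr (f : Fin 3) (x y : Fin 3 → ℕ) (h : ∀ g : Fin 3, g.val < f.val → x g = y g) :
    mask (univ.filter (fun g => g < f)) x = mask (univ.filter (fun g => g < f)) y := by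
  funext g
  unfold mask
  by_cases hg : g ∈ univ.filter (fun g => g < f)
  · rw [if_pos hg, if_pos hg]
    exact h g (Finset.mem_filter.1 hg).2
  · rw [if_neg hg, if_neg hg]

/-- number of roots of unity of the static level `t` -/
noncomputable def Cs (t : ℕ) : ℕ := ∏ f, (ps t f - 1)

theorem cs_dec (m l t : ℕ) (w : Key → ℕ) (T : ℕ) :
    ((Ys m (era l) t).filter (fun y => cs m l t w y ≡ T [MOD QQ m (era l) t])).card ≤ Cs t := by
  refine Pool.Agent.Helper73.T5.lc_dec_sadm (ps_prime t) (ps_ne_two t) (ps_inj t)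
    (FF m l (t + 1) * LL (QQ m (era l)) t)
    (coprime_front m l t) (es m (era l) t) (es m (era l) t) (fun _ => le_rfl) (fun f => f.val)
    ((Ss m l t).rho w) ?_ (Ys m (era l) t) (Ys_adm _ _ _) T
  · intro f x y h
    change ((w (hkey l (t + 2) f (mask (univ.filter (fun g => g < f)) x)) : ℕ) :
        ZMod (ps t f ^ es m (era l) t f))
      = ((w (hkey l (t + 2) f (mask (univ.filter (fun g => g < f)) y)) : ℕ) :
        ZMod (ps t f ^ es m (era l) t f))
    rw [mask_lt_congr f x y h]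

theorem cs_lt (m l t : ℕ) (w : Key → ℕ) (y : Fin 3 → ℕ) :
    cs m l t w y < FF m l (t + 1) * LL (QQ m (era l)) (t + 1) := by
  have h := fc_lt (ps_prime t) (ps_inj t) (FF m l (t + 1) * LL (QQ m (era l)) t)
    (Nat.mul_pos (NN_pos pr_prime _) (by rw [LL_QQ]; exact Lp_pos _ _ _)) (es m (era l) t)
    (fun i => Lg (ps t i) ((Ss m l t).e i) (y i) + (Ss m l t).rho w i y)
  rw [LL_succ, QQ_eq_NN, ← mul_assoc]
  exact h

theorem dvd_cs (m l t : ℕ) (w : Key → ℕ) (y : Fin 3 → ℕ) :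
    FF m l (t + 1) * LL (QQ m (era l)) t ∣ cs m l t w y :=
  dvd_fc (ps_prime t) (ps_inj t) _ _ _

/-! ## the elements -/

/-- the element of the state `l` with given configuration -/
noncomputable def elt (m k l : ℕ) (w : Key → ℕ)
    (q : ((Fin 3 → ℕ) × (Fin k → Fin 3 → ℕ)) × ℕ) : ℕ :=
  (c1 m l w q.1.1 + ∑ t : Fin k, cs m l t w (q.1.2 t)) + Nj l * LA m k (era l) * q.2

/-- all configurations -/
noncomputable def Cf (m k l : ℕ) (V : Finset ℕ) :
    Finset (((Fin 3 → ℕ) × (Fin k → Fin 3 → ℕ)) × ℕ) :=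
  (X1 l ×ˢ Fintype.piFinset (fun t : Fin k => Ys m (era l) t)) ×ˢ V

theorem AA_eq (m k l : ℕ) (w : Key → ℕ) :
    AA m k l w = (Cf m k l (Vw m k l w)).image (elt m k l w) := by
  classical
  unfold AA scaleSet Cf elt
  ext a
  simp only [mem_image, mem_product]
  constructor
  · rintro ⟨⟨⟨x, y⟩, u⟩, ⟨h1, ⟨v, hv, hu⟩⟩, ha⟩
    exact ⟨⟨⟨x, y⟩, v⟩, ⟨h1, hv⟩, by simp only at hu ha ⊢; rw [hu]; exact ha⟩
  · rintro ⟨⟨⟨x, y⟩, v⟩, ⟨h1, hv⟩, ha⟩
    exact ⟨⟨⟨x, y⟩, Nj l * LA m k (era l) * v⟩, ⟨h1, ⟨v, hv, rfl⟩⟩, ha⟩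

/-- **Decoding**: a bounded number of configurations give the same element. -/
theorem elt_fib (m k l : ℕ) (w : Key → ℕ) (hl : ∀ i, 1 ≤ i → i ≤ k + 1 → l ≤ ef m i l)
    (V : Finset ℕ) (a : ℕ) :
    ((Cf m k l V).filter (fun q => elt m k l w q = a)).card ≤
      (10 ^ 7) ^ 3 * ∏ t ∈ range k, Cs t := by
  classical
  refine dec_card (X1 l) (c1 m l w) k (Ys m (era l)) (fun t y => cs m l t w y)
    (QQ m (era l)) Cs (Nj l) ((10 ^ 7) ^ 3) (Nj_pos l) (fun t _ => Qs_pos _ _ _)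
    (fun T => c1_dec m l w (hl 1 le_rfl (by omega)) T) ?_ (fun t _ T => cs_dec m l t w T) V a
  intro t ht y _
  exact (Nat.mul_dvd_mul_right (Nj_dvd (hl (t + 2) (by omega) (by omega))) _).trans
    (dvd_cs m l t w y)

end Pool.Agent.Helper75.T5
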