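import Pool.Agent.Helper11.T5.Facts
import Pool.Agent.Helper2.T5.Bern
import Pool.Agent.Helper45.T5.RegWin
import Pool.Agent.Helper30.T5.Stat2

/-!
# T5a, block NEAR, line N7: the random window set is regular

`regV`: off an event of small probability `Vw` is regular for all arcs and all classes (all moduli
`g > 0`), density `1 / 2 ^ lev vlo`.
-/

set_option autoImplicit false

namespace Pool.Agent.Helper75.T5

open Finset Pool.Agent.Helper29.T4 Pool.Agent.Helper42.T5.Pr Pool.Agent.Helper50.T5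
open Pool.Agent.Helper5.ET (era bb Nj)
open Pool.Agent.Helper27.T5 (la rt W used ef)
open Pool.Agent.Helper11.T5

/-! ## Bernstein as a probability over a set of keys -/

section Bern

variable {κ : Type*} [DecidableEq κ] {M : κ → ℕ}

/-- Bernstein with groups, the keys of `K` being uniform -/
theorem PrLe_bern (hM : ∀ k, 0 < M k) (K : Finset κ) {δ α : Type*} [DecidableEq δ]
    [DecidableEq α] (Y : Finset δ) (hit : δ → (κ → ℕ) → Prop) (fk : δ → Finset κ)
    (vl : δ → κ → ℕ) (hfk : ∀ y ∈ Y, fk y ⊆ K)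
    (hv : ∀ y ∈ Y, ∀ r ∈ OmK M K, hit y (ext K r) → ∀ k ∈ fk y, ext K r k = vl y k)
    (φ : δ → α) (hd : ∀ y ∈ Y, ∀ z ∈ Y, φ y ≠ φ z → Disjoint (fk y) (fk z)) (B : ℕ)
    (hB : ∀ r ∈ OmK M K, ∀ a, ∀ G ⊆ Y, (∀ y ∈ G, φ y = a ∧ hit y (ext K r)) → G.card ≤ B)
    (Q : ℝ) (hQ : ∑ y ∈ Y, ∏ k ∈ fk y, ((M k : ℝ))⁻¹ ≤ Q) (m Q' : ℕ)
    (hQ' : Real.exp 1 * Q ≤ Q') (hQ0 : 0 < Q') :
    PrLe M K (fun w => ∃ G ⊆ Y, (∀ y ∈ G, hit y w) ∧ m * B + Q' ≤ G.card)
      (Real.exp (-m)) := by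
  classical
  have h := Pool.Agent.Helper2.T5.bernstein_exp (κ := K) (fun k : K => M k.1) (fun k => hM k.1)
    Y (fun y r => hit y (ext K r)) (fun y => univ.filter (fun k : K => k.1 ∈ fk y))
    (fun y k => vl y k.1) ?_ φ ?_ B ?_ Q ?_ m (m * B + Q') Q' hQ' hQ0 le_rfl
  · unfold PrLe
    rw [mul_comm (Real.exp (-(m : ℝ)))]
    refine le_trans ?_ h
    refine Nat.cast_le.2 (Finset.card_le_card ?_)
    intro r hr
    obtain ⟨hr1, G, hG, hh, hc⟩ := (@Finset.mem_filter _ _ (_) _ _).1 hr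
    refine (@Finset.mem_filter _ _ (_) _ _).2 ⟨hr1, hc.trans (Finset.card_le_card ?_)⟩
    intro y hy
    exact mem_filter.2 ⟨hG hy, hh y hy⟩
  · intro y hy r hr hh k hk
    rw [mem_filter] at hk
    rw [← hv y hy r hr hh k.1 hk.2, ext_mem r k.2]
  · intro y hy z hz hyz
    have := hd y hy z hz hyz
    rw [Finset.disjoint_left] at this ⊢
    intro k hk hk'
    rw [mem_filter] at hk hk'
    exact this hk.2 hk'.2
  · intro r hr a
    exact hB r hr a _ (filter_subset _ _) (fun y hy => (mem_filter.1 hy).2)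
  · refine le_trans (le_of_eq (Finset.sum_congr rfl (fun z hz => ?_))) hQ
    rw [← Finset.prod_image (s := univ.filter (fun k : K => k.1 ∈ fk z)) (g := fun k : K => (k : κ))
      (f := fun k => ((M k : ℝ))⁻¹) (fun a _ b _ hab => Subtype.ext hab)]
    congr 1
    ext k
    rw [mem_image]
    constructor
    · rintro ⟨k', hk', rfl⟩
      exact (mem_filter.1 hk').2
    · intro hk
      exact ⟨⟨k, hfk z hz hk⟩, mem_filter.2 ⟨mem_univ _, hk⟩, rfl⟩

end Bern

/-! ## the abstract statement -/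

/-- an arc cut with a class -/
theorem card_arc_class {G : Finset ℕ} {a L g c : ℕ}
    (hG : ∀ v ∈ G, a ≤ v ∧ v < a + L ∧ v % g = c % g) : G.card ≤ L / g + 1 := by
  rw [← Finset.card_image_of_injOn (f := fun v => v - a) (s := G)]
  · apply Pool.Agent.Helper22.HW.class_card (L := g)
    · intro x hx
      rw [mem_image] at hx
      obtain ⟨r, hr, rfl⟩ := hx
      have := hG r hr
      omega
    · intro x hx y hy
      rw [mem_image] at hx hy
      obtain ⟨r, hr, rfl⟩ := hx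
      obtain ⟨s, hs, rfl⟩ := hy
      obtain ⟨h1, -, h2⟩ := hG r hr
      obtain ⟨h3, -, h4⟩ := hG s hs
      refine Nat.ModEq.add_right_cancel' a ?_
      rw [Nat.sub_add_cancel h1, Nat.sub_add_cancel h3]
      exact h2.trans h4.symm
  · intro r hr s hs hrs
    have e1 := (hG r hr).1
    have e2 := (hG s hs).1
    simp only at hrs
    omega

theorem lev_mono {u v : ℕ} (h : u ≤ v) : lev u ≤ lev v := Nat.log_mono_right h

section Abs

variable {κ : Type*} [DecidableEq κ] {M : κ → ℕ}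

/-- one arc and one class -/
theorem regV_one (hM : ∀ k, 0 < M k) (key : ℕ → ℕ → κ)
    (hkey : ∀ L b L' b', key L b = key L' b' → L = L' ∧ b = b')
    (hMk : ∀ L b, M (key L b) = 2 ^ L) (vl vh : ℕ) (K : Finset κ)
    (hK : ∀ v, vl ≤ v → v < vh → key (lev v) (v / 2 ^ lev v) ∈ K)
    {g : ℕ} (hg : 0 < g) (a L c mm : ℕ) :
    PrLe M K (fun w => ¬ ((((VW vl vh (fun L b => w (key L b))).filter
      (fun b => a ≤ b ∧ b < a + L ∧ b % g = c % g)).card : ℝ) ≤
        (mm + 3 : ℕ) * (1 + L / (g * (2 ^ lev vl : ℕ))))) (Real.exp (-mm)) := by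
  classical
  set w0 : ℝ := ((2 ^ lev vl : ℕ) : ℝ) with hw0
  have hw0p : 0 < w0 := by rw [hw0]; positivity
  have hw01 : 1 ≤ w0 := by
    rw [hw0]
    exact_mod_cast Nat.one_le_two_pow
  have hgR : (0 : ℝ) < g := by exact_mod_cast hg
  have hg1 : (1 : ℝ) ≤ g := by exact_mod_cast hg
  set Y : Finset ℕ := (Ico vl vh).filter (fun b => a ≤ b ∧ b < a + L ∧ b % g = c % g) with hY
  set Q : ℝ := 1 + L / (g * w0) with hQdef
  have hQpos : 1 ≤ Q := by
    rw [hQdef]
    have : (0 : ℝ) ≤ L / (g * w0) := by positivity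
    linarith
  have hYc : (Y.card : ℝ) ≤ L / g + 1 := by
    have h1 : Y.card ≤ L / g + 1 := card_arc_class (fun v hv => (mem_filter.1 hv).2)
    have h2 : ((L / g : ℕ) : ℝ) ≤ (L : ℝ) / g := Nat.cast_div_le
    have h3 : (Y.card : ℝ) ≤ ((L / g + 1 : ℕ) : ℝ) := by exact_mod_cast h1
    push_cast at h3
    linarith
  have h := PrLe_bern (M := M) hM K Y
    (fun v w => v % 2 ^ lev v = w (key (lev v) (v / 2 ^ lev v)))
    (fun v => {key (lev v) (v / 2 ^ lev v)}) (fun v _ => v % 2 ^ lev v) ?_ ?_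
    (fun v => key (lev v) (v / 2 ^ lev v)) ?_ 1 ?_ Q ?_ mm (⌈Real.exp 1 * Q⌉₊) (Nat.le_ceil _)
    ?_
  · refine PrLe_mono ?_ le_rfl h
    intro r _ hn
    rw [not_le] at hn
    refine ⟨(VW vl vh (fun L b => ext K r (key L b))).filter
      (fun b => a ≤ b ∧ b < a + L ∧ b % g = c % g), ?_, ?_, ?_⟩
    · intro v hv
      rw [mem_filter] at hv
      have h1 := hv.1
      unfold VW at h1
      rw [mem_filter] at h1
      exact mem_filter.2 ⟨h1.1, hv.2⟩
    · intro v hv
      rw [mem_filter] at hv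
      have h1 := hv.1
      unfold VW at h1
      rw [mem_filter] at h1
      exact h1.2
    · by_contra hc
      rw [not_le] at hc
      have h1 : (((VW vl vh (fun L b => ext K r (key L b))).filter
        (fun b => a ≤ b ∧ b < a + L ∧ b % g = c % g)).card : ℝ) + 1 ≤
          mm * 1 + ⌈Real.exp 1 * Q⌉₊ := by
        exact_mod_cast hc
      have h2 : (⌈Real.exp 1 * Q⌉₊ : ℝ) < Real.exp 1 * Q + 1 :=
        Nat.ceil_lt_add_one (by positivity)
      have h3 : Real.exp 1 < 3 := Real.exp_one_lt_three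
      have h4 : ((mm + 3 : ℕ) : ℝ) * Q = mm * Q + 3 * Q := by push_cast; ring
      rw [h4] at hn
      have h5 : (mm : ℝ) * 1 ≤ mm * Q := mul_le_mul_of_nonneg_left hQpos (Nat.cast_nonneg _)
      nlinarith
  · intro v hv
    rw [hY, mem_filter, mem_Ico] at hv
    exact Finset.singleton_subset_iff.2 (hK v hv.1.1 hv.1.2)
  · intro v _ r _ hh k hk
    rw [mem_singleton] at hk
    rw [hk]
    exact hh.symm
  · intro v _ u _ hvu
    rw [Finset.disjoint_singleton]
    exact hvu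
  · intro r _ k G _ hG
    refine Finset.card_le_one.2 (fun u hu v hv => ?_)
    obtain ⟨h1, h2⟩ := hG u hu
    obtain ⟨h3, h4⟩ := hG v hv
    obtain ⟨e1, e2⟩ := hkey _ _ _ _ (h1.trans h3.symm)
    rw [h1] at h2
    rw [h3] at h4
    rw [← Nat.div_add_mod u (2 ^ lev u), ← Nat.div_add_mod v (2 ^ lev v), h2, h4, e2, e1]
  · have h1 : ∀ v ∈ Y, ∏ k ∈ ({key (lev v) (v / 2 ^ lev v)} : Finset κ), ((M k : ℝ))⁻¹ ≤
        w0⁻¹ := by
      intro v hv
      rw [hY, mem_filter, mem_Ico] at hv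
      rw [prod_singleton, hMk]
      apply inv_anti₀ hw0p
      rw [hw0]
      exact_mod_cast Nat.pow_le_pow_right (by norm_num) (lev_mono hv.1.1)
    refine (Finset.sum_le_sum h1).trans ?_
    rw [sum_const, nsmul_eq_mul]
    have h2 : (Y.card : ℝ) * w0⁻¹ ≤ (L / g + 1) * w0⁻¹ :=
      mul_le_mul_of_nonneg_right hYc (by positivity)
    have h3 : ((L : ℝ) / g + 1) * w0⁻¹ = L / (g * w0) + 1 / w0 := by
      field_simp
    have h4 : 1 / w0 ≤ 1 := by
      rw [div_le_one hw0p]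
      exact hw01
    rw [hQdef]
    linarith
  · rw [Nat.ceil_pos]
    positivity

/-- **the window set is regular** (abstract form) -/
theorem regV_abs (hM : ∀ k, 0 < M k) (key : ℕ → ℕ → κ)
    (hkey : ∀ L b L' b', key L b = key L' b' → L = L' ∧ b = b')
    (hMk : ∀ L b, M (key L b) = 2 ^ L) (vl vh : ℕ) (K : Finset κ)
    (hK : ∀ v, vl ≤ v → v < vh → key (lev v) (v / 2 ^ lev v) ∈ K) (mm Q : ℕ) :
    PrLe M K (fun w => ¬ Pool.Agent.Helper45.T5.RegSet (VW vl vh (fun L b => w (key L b))) Q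
      ((mm + 3 : ℕ) : ℝ) ((2 ^ lev vl : ℕ) : ℝ)) (((vh + 1) ^ 4 : ℕ) * Real.exp (-mm)) := by
  classical
  set I : Finset (ℕ × ℕ × ℕ × ℕ) :=
    range (vh + 1) ×ˢ (range (vh + 1) ×ˢ (range (vh + 1) ×ˢ range (vh + 1))) with hI
  have hIc : I.card = (vh + 1) ^ 4 := by
    rw [hI]
    simp only [card_product, card_range]
    ring
  have h := PrLe_exists (M := M) (K := K) I
    (B := fun i w => 0 < i.1 ∧ ¬ ((((VW vl vh (fun L b => w (key L b))).filter
      (fun b => i.2.1 ≤ b ∧ b < i.2.1 + i.2.2.1 ∧ b % i.1 = i.2.2.2 % i.1)).card : ℝ) ≤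
        (mm + 3 : ℕ) * (1 + i.2.2.1 / (i.1 * (2 ^ lev vl : ℕ)))))
    (ε := fun _ => Real.exp (-mm)) ?_
  · rw [sum_const, nsmul_eq_mul, hIc] at h
    refine PrLe_mono ?_ le_rfl h
    intro r _ hn
    by_contra hc
    apply hn
    intro g hg _ a L c
    set w := ext K r with hw
    set V := VW vl vh (fun L b => w (key L b)) with hV
    have hVlt : ∀ v ∈ V, v < vh := by
      intro v hv
      rw [hV] at hv
      unfold VW at hv
      rw [mem_filter, mem_Ico] at hv
      exact hv.1.2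
    have hw0 : (1 : ℝ) ≤ ((2 ^ lev vl : ℕ) : ℝ) := by exact_mod_cast Nat.one_le_two_pow
    have hgR : (0 : ℝ) < g := by exact_mod_cast hg
    have h3 : (3 : ℝ) ≤ ((mm + 3 : ℕ) : ℝ) := by push_cast; linarith [(Nat.cast_nonneg mm : (0 : ℝ) ≤ mm)]
    -- small sets
    have hsmall : (V.filter (fun b => a ≤ b ∧ b < a + L ∧ b % g = c % g)).card ≤ 1 →
        (((V.filter (fun b => a ≤ b ∧ b < a + L ∧ b % g = c % g)).card : ℕ) : ℝ) ≤
          ((mm + 3 : ℕ) : ℝ) * (1 + L / (g * ((2 ^ lev vl : ℕ) : ℝ))) := by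
      intro h1
      have h2 : (((V.filter (fun b => a ≤ b ∧ b < a + L ∧ b % g = c % g)).card : ℕ) : ℝ) ≤ 1 := by
        exact_mod_cast h1
      have h4 : (0 : ℝ) ≤ L / (g * ((2 ^ lev vl : ℕ) : ℝ)) := by positivity
      nlinarith
    by_cases hgv : vh < g
    · apply hsmall
      refine Finset.card_le_one.2 (fun u hu v hv => ?_)
      rw [mem_filter] at hu hv
      have e1 := hVlt u hu.1
      have e2 := hVlt v hv.1
      have e3 := hu.2.2.2
      have e4 := hv.2.2.2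
      rw [Nat.mod_eq_of_lt (by omega)] at e3 e4
      rw [e3, e4]
    by_cases hav : vh < a
    · apply hsmall
      rw [Finset.card_eq_zero.2]
      · exact Nat.zero_le _
      · rw [Finset.filter_eq_empty_iff]
        intro v hv h1
        have := hVlt v hv
        omega
    push Not at hgv hav
    -- the good case
    have hgood : ∀ L' ≤ vh, (((V.filter (fun b => a ≤ b ∧ b < a + L' ∧ b % g = c % g)).card
        : ℕ) : ℝ) ≤ ((mm + 3 : ℕ) : ℝ) * (1 + L' / (g * ((2 ^ lev vl : ℕ) : ℝ))) := by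
      intro L' hL'
      by_contra hbad
      apply hc
      refine ⟨(g, a, L', c % g), ?_, hg, ?_⟩
      · rw [hI]
        simp only [mem_product, mem_range]
        have := Nat.mod_lt c hg
        omega
      · simp only [Nat.mod_mod]
        exact hbad
    by_cases hL : L ≤ vh
    · exact hgood L hL
    · push Not at hL
      have h1 := hgood vh le_rfl
      have h2 : (V.filter (fun b => a ≤ b ∧ b < a + L ∧ b % g = c % g)).card ≤
          (V.filter (fun b => a ≤ b ∧ b < a + vh ∧ b % g = c % g)).card := by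
        refine Finset.card_le_card ?_
        intro v hv
        rw [mem_filter] at hv ⊢
        have := hVlt v hv.1
        exact ⟨hv.1, hv.2.1, by omega, hv.2.2.2⟩
      have h4 : (vh : ℝ) / (g * ((2 ^ lev vl : ℕ) : ℝ)) ≤ L / (g * ((2 ^ lev vl : ℕ) : ℝ)) := by
        apply div_le_div_of_nonneg_right _ (by positivity)
        exact_mod_cast hL.le
      calc (((V.filter (fun b => a ≤ b ∧ b < a + L ∧ b % g = c % g)).card : ℕ) : ℝ)
          ≤ ((V.filter (fun b => a ≤ b ∧ b < a + vh ∧ b % g = c % g)).card : ℕ) := by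
            exact_mod_cast h2
        _ ≤ _ := h1
        _ ≤ _ := mul_le_mul_of_nonneg_left (by linarith) (by positivity)
  · rintro ⟨g, a, L, c⟩ _
    by_cases hg : 0 < g
    · exact PrLe_mono (fun r _ hr => hr.2) le_rfl
        (regV_one hM key hkey hMk vl vh K hK hg a L c mm)
    · exact PrLe_false (fun r _ hr => hg hr.1) (Real.exp_pos _).le

end Abs

/-! ## the sizes of the window -/

theorem lt_lev (v : ℕ) : v < 4 * (2 ^ lev v) ^ 2 := by
  have h1 : v < 4 ^ (lev v + 1) := Nat.lt_pow_succ_log_self (by norm_num) v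
  have h2 : (4 : ℕ) ^ (lev v + 1) = 4 * (2 ^ lev v) ^ 2 := by
    rw [pow_succ, ← pow_mul, mul_comm (lev v) 2, pow_mul]
    ring
  omega

theorem lev_le {v : ℕ} (h : v ≠ 0) : (2 ^ lev v) ^ 2 ≤ v := by
  have h1 : 4 ^ lev v ≤ v := Nat.pow_log_le_self 4 h
  rwa [← pow_mul, mul_comm (lev v) 2, pow_mul]

variable {m k : ℕ}

theorem LA_eq_Lp (m k j : ℕ) : LA m k j = Pool.Agent.Helper30.T5.Lp m j (k + 1) :=
  LL_QQ m j k

theorem vlo_ge {j : ℕ} (hk : k + 2 ≤ m) (hr : 8 ≤ rt m j) :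
    (10 ^ 6) ^ W m j (k + 1) ≤ vlo m k j := by
  have h1 : LA m k j ≤ (10 ^ 6) ^ (W m j 1 - W m j (k + 1)) := by
    rw [LA_eq_Lp]
    exact Pool.Agent.Helper30.T5.Lp_le (by omega) (by omega) hr
  have h2 : W m j (k + 1) ≤ W m j 1 := Pool.Agent.Helper30.T5.W_anti m j (by omega)
  have h3 : (10 ^ 6) ^ W m j (k + 1) * LA m k j ≤ (10 ^ 6) ^ W m j 1 := by
    calc (10 ^ 6) ^ W m j (k + 1) * LA m k j
        ≤ (10 ^ 6) ^ W m j (k + 1) * (10 ^ 6) ^ (W m j 1 - W m j (k + 1)) :=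
          Nat.mul_le_mul_left _ h1
      _ = (10 ^ 6) ^ W m j 1 := by
          rw [← pow_add]
          congr 1
          omega
  have h4 := (Nat.le_div_iff_mul_le (LA_pos m k j)).2 h3
  unfold vlo
  omega

theorem vlo_le {j : ℕ} (hk : k + 2 ≤ m) (hr : 8 ≤ rt m j) :
    vlo m k j ≤ 2 * (Pool.Agent.Helper30.T5.spq (k + 1) * (10 ^ 6) ^ W m j (k + 1)) := by
  have h1 : (10 ^ 6) ^ (W m j 1 - W m j (k + 1)) ≤
      LA m k j * Pool.Agent.Helper30.T5.spq (k + 1) := by
    rw [LA_eq_Lp]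
    exact Pool.Agent.Helper30.T5.le_Lp_mul (by omega) (by omega) hr
  have h2 : W m j (k + 1) ≤ W m j 1 := Pool.Agent.Helper30.T5.W_anti m j (by omega)
  have h3 : (10 ^ 6) ^ W m j 1 ≤
      LA m k j * (Pool.Agent.Helper30.T5.spq (k + 1) * (10 ^ 6) ^ W m j (k + 1)) := by
    calc (10 ^ 6) ^ W m j 1
        = (10 ^ 6) ^ (W m j 1 - W m j (k + 1)) * (10 ^ 6) ^ W m j (k + 1) := by
          rw [← pow_add]
          congr 1
          omega
      _ ≤ (LA m k j * Pool.Agent.Helper30.T5.spq (k + 1)) * (10 ^ 6) ^ W m j (k + 1) :=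
          Nat.mul_le_mul_right _ h1
      _ = _ := by ring
  have h4 : (10 ^ 6) ^ W m j 1 / LA m k j ≤
      Pool.Agent.Helper30.T5.spq (k + 1) * (10 ^ 6) ^ W m j (k + 1) :=
    Nat.div_le_of_le_mul h3
  have h5 : 0 < Pool.Agent.Helper30.T5.spq (k + 1) * (10 ^ 6) ^ W m j (k + 1) :=
    Nat.mul_pos (Pool.Agent.Helper30.T5.spq_pos _) (by positivity)
  unfold vlo
  omega

theorem vhi_le {l : ℕ} (hu : used m l) (hb : 10 * m ≤ la (era l)) (hm : 1 < m) :
    vhi m k l ≤ 1000037 * vlo m k (era l) := by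
  have h1 := Pool.Agent.Helper27.T5.XT_same_le (TA m k) (show l ≤ l + 1 by omega)
    (Pool.Agent.Helper27.T5.era_add_two hu hb hm).1.symm
  rw [show l + 1 - l = 1 by omega, pow_one] at h1
  have h2 : 0 < Nj l * LA m k (era l) :=
    Nat.mul_pos (Pool.Agent.Helper27.T5.Nj_pos1 l) (LA_pos _ _ _)
  unfold vhi
  refine Nat.div_le_of_le_mul ((Nat.sub_le _ _).trans (h1.trans (le_of_eq ?_)))
  unfold Pool.Agent.Helper27.T5.XT TA
  ring

/-- the upper end of the window, logarithmic -/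
theorem exists_vhi_le (hk : k + 2 ≤ m) : ∃ j0 : ℕ, ∀ l, used m l → j0 ≤ era l →
    10 * m ≤ la (era l) ∧ 8 ≤ rt m (era l) ∧
      ((vhi m k l + 1 : ℕ) : ℝ) ≤ Real.exp (15 * W m (era l) (k + 1)) := by
  obtain ⟨j1, h1⟩ := Pool.Agent.Helper27.T5.exists_large m
  set C : ℕ := 4000000 * Pool.Agent.Helper30.T5.spq (k + 1) with hC
  obtain ⟨j2, h2⟩ := Pool.Agent.Helper30.T5.exists_le_rt (m := m) (by omega) (C + 8)
  refine ⟨max j1 j2, fun l hu hj => ?_⟩
  have hb := h1 (era l) (le_trans (le_max_left _ _) hj)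
  have hr := h2 (era l) (le_trans (le_max_right _ _) hj)
  have hW : rt m (era l) ≤ W m (era l) (k + 1) :=
    Pool.Agent.Helper30.T5.rt_le_W (by omega)
  refine ⟨hb, by omega, ?_⟩
  have h3 := vhi_le (k := k) hu hb (by omega)
  have h4 := vlo_le (j := era l) hk (by omega)
  have h5 : vhi m k l + 1 ≤ C * (10 ^ 6) ^ W m (era l) (k + 1) := by
    have h6 : 0 < Pool.Agent.Helper30.T5.spq (k + 1) * (10 ^ 6) ^ W m (era l) (k + 1) :=
      Nat.mul_pos (Pool.Agent.Helper30.T5.spq_pos _) (by positivity)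
    calc vhi m k l + 1 ≤ 1000037 * (2 * (Pool.Agent.Helper30.T5.spq (k + 1) *
          (10 ^ 6) ^ W m (era l) (k + 1))) + 1 := by
            exact Nat.add_le_add_right (h3.trans (Nat.mul_le_mul_left _ h4)) 1
      _ ≤ 4000000 * (Pool.Agent.Helper30.T5.spq (k + 1) * (10 ^ 6) ^ W m (era l) (k + 1)) := by
            omega
      _ = _ := by rw [hC]; ring
  have h6 : ((vhi m k l + 1 : ℕ) : ℝ) ≤ (C : ℝ) * ((10 : ℝ) ^ 6) ^ W m (era l) (k + 1) := by
    have : ((vhi m k l + 1 : ℕ) : ℝ) ≤ ((C * (10 ^ 6) ^ W m (era l) (k + 1) : ℕ) : ℝ) := by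
      exact_mod_cast h5
    refine this.trans (le_of_eq ?_)
    rw [Nat.cast_mul, Nat.cast_pow]
    norm_num
  have h7 : (C : ℝ) ≤ Real.exp (W m (era l) (k + 1)) := by
    have e1 := Real.add_one_le_exp ((W m (era l) (k + 1) : ℕ) : ℝ)
    have e2 : (C : ℝ) ≤ ((W m (era l) (k + 1) : ℕ) : ℝ) := by
      exact_mod_cast (show C ≤ W m (era l) (k + 1) by omega)
    linarith
  have h8 : ((10 : ℝ) ^ 6) ^ W m (era l) (k + 1) ≤ Real.exp (14 * W m (era l) (k + 1)) := by
    have e1 : (10 : ℝ) ^ 6 ≤ Real.exp 14 := by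
      rw [← Real.log_le_iff_le_exp (by norm_num)]
      exact Pool.Agent.Helper30.T5.log_million_lt.le
    calc ((10 : ℝ) ^ 6) ^ W m (era l) (k + 1) ≤ (Real.exp 14) ^ W m (era l) (k + 1) :=
          pow_le_pow_left₀ (by norm_num) e1 _
      _ = Real.exp (14 * W m (era l) (k + 1)) := by
          rw [← Real.exp_nat_mul]
          congr 1
          ring
  calc ((vhi m k l + 1 : ℕ) : ℝ) ≤ (C : ℝ) * ((10 : ℝ) ^ 6) ^ W m (era l) (k + 1) := h6
    _ ≤ Real.exp (W m (era l) (k + 1)) * Real.exp (14 * W m (era l) (k + 1)) :=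
        mul_le_mul h7 h8 (by positivity) (Real.exp_pos _).le
    _ = Real.exp (15 * W m (era l) (k + 1)) := by
        rw [← Real.exp_add]
        congr 1
        ring

/-! ## the window of the states -/

theorem bkey_inj {l L b L' b' : ℕ} (h : bkey l L b = bkey l L' b') : L = L' ∧ b = b' := by
  simp only [bkey, Prod.mk.injEq, true_and] at h
  have h0 := congrFun h 0
  have h1 := congrFun h 1
  simp only [Matrix.cons_val_zero, Matrix.cons_val_one] at h0 h1
  exact ⟨h0, h1⟩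

/-- **N7**: the window set of a used state is regular, for all arcs and all classes of all moduli;
`K` is any set of keys with the keys of the blocks -/
theorem regV (hk : k + 2 ≤ m) : ∃ j0 : ℕ, ∀ l, used m l → j0 ≤ era l → ∀ K : Finset Key,
    (∀ v < vhi m k l, bkey l (lev v) (v / 2 ^ lev v) ∈ K) → ∀ Q : ℕ,
    PrLe (Mk m) K (fun w => ¬ Pool.Agent.Helper45.T5.RegSet (Vw m k l w) Q
      (64 * W m (era l) (k + 1)) ((2 ^ lev (vlo m k (era l)) : ℕ) : ℝ))
      (Real.exp (-(W m (era l) (k + 1) : ℝ))) := by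
  obtain ⟨j0, h0⟩ := exists_vhi_le (m := m) (k := k) hk
  refine ⟨j0, fun l hu hj K hK Q => ?_⟩
  obtain ⟨-, hr, hv⟩ := h0 l hu hj
  have hW : rt m (era l) ≤ W m (era l) (k + 1) :=
    Pool.Agent.Helper30.T5.rt_le_W (by omega)
  have h := regV_abs (M := Mk m) (Mk_pos m) (bkey l) (fun _ _ _ _ h => bkey_inj h)
    (Mk_block m l) (vlo m k (era l)) (vhi m k l) K (fun v _ h => hK v h)
    (61 * W m (era l) (k + 1)) Q
  refine PrLe_mono ?_ ?_ h
  · intro r _ hn hreg
    apply hn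
    intro g hg hgQ a L c
    refine (hreg g hg hgQ a L c).trans ?_
    apply mul_le_mul_of_nonneg_right _ (by positivity)
    have : (61 * W m (era l) (k + 1) + 3 : ℕ) ≤ 64 * W m (era l) (k + 1) := by omega
    exact_mod_cast this
  · set x : ℝ := (W m (era l) (k + 1) : ℝ) with hx
    have h1 : (((vhi m k l + 1) ^ 4 : ℕ) : ℝ) ≤ Real.exp (60 * x) := by
      rw [Nat.cast_pow]
      calc ((vhi m k l + 1 : ℕ) : ℝ) ^ 4 ≤ (Real.exp (15 * x)) ^ 4 :=
            pow_le_pow_left₀ (Nat.cast_nonneg _) hv 4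
        _ = Real.exp (60 * x) := by
            rw [← Real.exp_nat_mul]
            congr 1
            push_cast
            ring
    calc (((vhi m k l + 1) ^ 4 : ℕ) : ℝ) * Real.exp (-((61 * W m (era l) (k + 1) : ℕ) : ℝ))
        ≤ Real.exp (60 * x) * Real.exp (-((61 * W m (era l) (k + 1) : ℕ) : ℝ)) :=
          mul_le_mul_of_nonneg_right h1 (Real.exp_pos _).le
      _ = Real.exp (-x) := by
          rw [← Real.exp_add]
          congr 1
          push_cast
          ring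

/-- the numbers of the window set: `exp (x / 2 - η) ≤ 2 ^ lev vlo`, `vhi ≤ exp (x + η)` with
`x = W (k + 1) * log 10 ^ 6` -/
theorem exists_eta (hk : k + 2 ≤ m) : ∃ η : ℝ, 0 ≤ η ∧ ∀ l, used m l → 10 * m ≤ la (era l) →
    8 ≤ rt m (era l) →
    Real.exp ((W m (era l) (k + 1) : ℝ) * Real.log (10 ^ 6) / 2 - η) ≤
      ((2 ^ lev (vlo m k (era l)) : ℕ) : ℝ) ∧
    (vhi m k l : ℝ) ≤ Real.exp ((W m (era l) (k + 1) : ℝ) * Real.log (10 ^ 6) + η) := by
  set c : ℕ := 1000037 * (2 * Pool.Agent.Helper30.T5.spq (k + 1)) with hc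
  have hs := Pool.Agent.Helper30.T5.spq_pos (k + 1)
  have hc3 : 3 ≤ c := by omega
  have hcR : (3 : ℝ) ≤ c := by exact_mod_cast hc3
  have hη : 1 ≤ Real.log c := by
    rw [Real.le_log_iff_exp_le (by linarith)]
    exact Real.exp_one_lt_three.le.trans hcR
  refine ⟨Real.log c, by linarith, fun l hu hb hr => ?_⟩
  set N : ℕ := W m (era l) (k + 1) with hN
  have hpow : Real.exp ((N : ℝ) * Real.log (10 ^ 6)) = ((10 : ℝ) ^ 6) ^ N := by
    rw [Real.exp_nat_mul, Real.exp_log (by norm_num)]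
  constructor
  · have h1 : ((10 : ℝ) ^ 6) ^ N ≤ (vlo m k (era l) : ℝ) := by
      have h2 : (((10 ^ 6) ^ N : ℕ) : ℝ) ≤ (vlo m k (era l) : ℝ) := by
        exact_mod_cast vlo_ge (j := era l) hk hr
      rw [Nat.cast_pow] at h2
      refine le_trans (le_of_eq ?_) h2
      norm_num
    have h3 : Real.exp ((N : ℝ) * Real.log (10 ^ 6) / 2) ≤ Real.sqrt (vlo m k (era l)) := by
      apply Real.le_sqrt_of_sq_le
      rw [← Real.exp_nat_mul]
      have e1 : ((2 : ℕ) : ℝ) * ((N : ℝ) * Real.log (10 ^ 6) / 2) =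
        (N : ℝ) * Real.log (10 ^ 6) := by
        push_cast
        ring
      rw [e1, hpow]
      exact h1
    have h4 : Real.sqrt (vlo m k (era l)) ≤
        2 * ((2 ^ lev (vlo m k (era l)) : ℕ) : ℝ) := by
      rw [Real.sqrt_le_left (by positivity)]
      have h := lt_lev (vlo m k (era l))
      have h5 : (vlo m k (era l) : ℝ) ≤ ((4 * (2 ^ lev (vlo m k (era l))) ^ 2 : ℕ) : ℝ) := by
        exact_mod_cast h.le
      push_cast at h5
      push_cast
      nlinarith
    have h6 : Real.exp (-Real.log c) ≤ 1 / 2 := by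
      rw [Real.exp_neg, Real.exp_log (by linarith), one_div]
      exact inv_anti₀ (by norm_num) (by linarith)
    rw [sub_eq_add_neg, Real.exp_add]
    have h7 : Real.exp ((N : ℝ) * Real.log (10 ^ 6) / 2) * Real.exp (-Real.log c) ≤
        Real.exp ((N : ℝ) * Real.log (10 ^ 6) / 2) * (1 / 2) :=
      mul_le_mul_of_nonneg_left h6 (Real.exp_pos _).le
    linarith
  · have h1 : vhi m k l ≤ c * (10 ^ 6) ^ N := by
      calc vhi m k l ≤ 1000037 * vlo m k (era l) := vhi_le hu hb (by omega)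
        _ ≤ 1000037 * (2 * (Pool.Agent.Helper30.T5.spq (k + 1) * (10 ^ 6) ^ N)) :=
            Nat.mul_le_mul_left _ (vlo_le hk hr)
        _ = _ := by rw [hc]; ring
    have h2 : (vhi m k l : ℝ) ≤ ((c * (10 ^ 6) ^ N : ℕ) : ℝ) := by exact_mod_cast h1
    rw [Real.exp_add, hpow, Real.exp_log (by linarith), mul_comm]
    refine h2.trans (le_of_eq ?_)
    rw [Nat.cast_mul, Nat.cast_pow]
    norm_num

/-- the density against the size of the window: `sqrt vlo ≤ 2 * 2 ^ lev vlo` -/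
theorem sqrt_le_lev (v : ℕ) : Real.sqrt v ≤ 2 * ((2 ^ lev v : ℕ) : ℝ) := by
  rw [Real.sqrt_le_left (by positivity)]
  have h := lt_lev v
  have h1 : (v : ℝ) ≤ ((4 * (2 ^ lev v) ^ 2 : ℕ) : ℝ) := by exact_mod_cast h.le
  push_cast at h1
  push_cast
  nlinarith

end Pool.Agent.Helper75.T5
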